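import Mathlib

set_option autoImplicit false

/-!
# The mechanism RD+PCD on the circle

For every odd number `n = 2 k + 1 ≥ 3` of agents and every profile on the circle of length one,
the approximation ratio of the mechanism RD+PCD is below `3 / 2`.
-/

namespace Pool.Agent.Results.MP_9e0a8c_lc.RatioBelow

open Finset

/-- The circle of length one: `[-1/2, 1/2]` with its endpoints identified; every point is
represented by its unique representative in `[-1/2, 1/2)`. -/
def G : Set ℝ := Set.Ico (-(1 / 2)) (1 / 2)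

/-- the metric of the circle -/
noncomputable def cdist (u v : ℝ) : ℝ := min |u - v| (1 - |u - v|)

/-- social cost of the point `v` for the profile `b` -/
noncomputable def sc {n : ℕ} (b : Fin n → ℝ) (v : ℝ) : ℝ := ∑ i, cdist (b i) v

/-- social cost of a lottery `l` (a finitely supported weight function on the points) -/
noncomputable def scLottery {n : ℕ} (b : Fin n → ℝ) (l : ℝ →₀ ℝ) : ℝ :=
  l.sum fun v p => p * sc b v

/-- optimal social cost -/
noncomputable def opt {n : ℕ} (b : Fin n → ℝ) : ℝ := sInf (sc b '' G)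

/-- random dictator: every report gets mass `1 / n` -/
noncomputable def RD {n : ℕ} (b : Fin n → ℝ) : ℝ →₀ ℝ := ∑ i, Finsupp.single (b i) (1 / (n : ℝ))

/-- length of the clockwise arc from `u` to `v` (clockwise is the direction of increasing
coordinates) -/
noncomputable def arc (u v : ℝ) : ℝ := if u ≤ v then v - u else v - u + 1

/-- `a` lists the agents in clockwise order of their reports (indices mod `n = 2 k + 1`): going
from each `b (a j)` clockwise to `b (a (j + 1))`, for all `j` mod `n`, is at most one full turn. -/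
def IsClockwise {k : ℕ} (b : Fin (2 * k + 1) → ℝ) (a : ZMod (2 * k + 1) ≃ Fin (2 * k + 1)) : Prop :=
  ∑ j, arc (b (a j)) (b (a (j + 1))) ≤ 1

/-- the length of the arc opposing `a j` -/
noncomputable def opposing {k : ℕ} (b : Fin (2 * k + 1) → ℝ)
    (a : ZMod (2 * k + 1) ≃ Fin (2 * k + 1)) (j : ZMod (2 * k + 1)) : ℝ :=
  arc (b (a (j + k))) (b (a (j - k)))

/-- proportional circle distance -/
noncomputable def PCD {k : ℕ} (b : Fin (2 * k + 1) → ℝ)
    (a : ZMod (2 * k + 1) ≃ Fin (2 * k + 1)) : ℝ →₀ ℝ :=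
  ∑ j, Finsupp.single (b (a j)) (opposing b a j / ∑ i, opposing b a i)

/-- the mechanism RD+PCD -/
noncomputable def RDPCD {k : ℕ} (b : Fin (2 * k + 1) → ℝ)
    (a : ZMod (2 * k + 1) ≃ Fin (2 * k + 1)) : ℝ →₀ ℝ :=
  (1 / 2 : ℝ) • RD b + (1 / 2 : ℝ) • PCD b a

open Classical in
/-- the approximation ratio of RD+PCD on the profile `b` -/
noncomputable def apx {k : ℕ} (b : Fin (2 * k + 1) → ℝ)
    (a : ZMod (2 * k + 1) ≃ Fin (2 * k + 1)) : ℝ :=
  if ∀ i j, b i = b j then 1 else scLottery b (RDPCD b a) / opt b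

/-! ### A weighted inequality of Motzkin and Straus type -/

section MS

variable {ι : Type*} [DecidableEq ι] (R : ι → ι → Prop) [DecidableRel R]

/-- the sum of `w a * w b` over the ordered pairs of related elements of `s` -/
def pairSum (s : Finset ι) (w : ι → ℝ) : ℝ :=
  ∑ a ∈ s, ∑ b ∈ s, if R a b then w a * w b else 0

theorem pairSum_insert (hsymm : ∀ a b, R a b → R b a) (hirr : ∀ a, ¬ R a a) (s : Finset ι) (i : ι)
    (hi : i ∉ s) (w : ι → ℝ) :
    pairSum R (insert i s) w = pairSum R s w + 2 * (w i * ∑ b ∈ s, if R i b then w b else 0) := by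
  unfold pairSum
  rw [sum_insert hi]
  have h1 : ∀ a ∈ s, ∑ b ∈ insert i s, (if R a b then w a * w b else 0) =
      (if R a i then w a * w i else 0) + ∑ b ∈ s, (if R a b then w a * w b else 0) := by
    intro a _
    rw [sum_insert hi]
  rw [sum_congr rfl h1, sum_insert hi, sum_add_distrib]
  have h2 : ∑ a ∈ s, (if R a i then w a * w i else 0) = w i * ∑ b ∈ s, if R i b then w b else 0 := by
    rw [mul_sum]
    apply sum_congr rfl
    intro a _
    by_cases h : R a i
    · rw [if_pos h, if_pos (hsymm _ _ h)]; ring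
    · rw [if_neg h, if_neg (fun h' => h (hsymm _ _ h'))]; ring
  have h3 : ∑ b ∈ s, (if R i b then w i * w b else 0) = w i * ∑ b ∈ s, if R i b then w b else 0 := by
    rw [mul_sum]
    apply sum_congr rfl
    intro a _
    split_ifs <;> ring
  rw [h2, h3, if_neg (hirr i)]
  ring

theorem clique_ineq (s : Finset ι) (w γ : ι → ℝ) (hγ0 : ∀ i ∈ s, 0 ≤ γ i)
    (hγ : ∑ i ∈ s, γ i ≤ 1) (hw : ∀ i ∈ s, 0 ≤ w i) :
    (∑ i ∈ s, w i) ^ 2 - ∑ i ∈ s, w i ^ 2 ≤ 2 * (∑ i ∈ s, w i) * ∑ i ∈ s, w i * (1 - γ i) ^ 2 := by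
  set W := ∑ i ∈ s, w i with hW
  set G := ∑ i ∈ s, γ i ^ 2 with hG
  have hW0 : 0 ≤ W := sum_nonneg hw
  have h1 : ∀ i ∈ s, 1 / 2 + G / 2 - γ i ≤ (1 - γ i) ^ 2 := by
    intro i hi
    have h2 : G - γ i ^ 2 ≤ (1 - γ i) ^ 2 := by
      have h3 : G - γ i ^ 2 = ∑ j ∈ s.erase i, γ j ^ 2 := by
        rw [hG, ← add_sum_erase s _ hi]; ring
      have h4 : ∑ j ∈ s.erase i, γ j ^ 2 ≤ (∑ j ∈ s.erase i, γ j) ^ 2 :=
        sum_sq_le_sq_sum_of_nonneg (fun j hj => hγ0 j (mem_of_mem_erase hj))
      have h5 : ∑ j ∈ s.erase i, γ j ≤ 1 - γ i := by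
        have : γ i + ∑ j ∈ s.erase i, γ j = ∑ j ∈ s, γ j := add_sum_erase s _ hi
        linarith
      have h6 : 0 ≤ ∑ j ∈ s.erase i, γ j := sum_nonneg (fun j hj => hγ0 j (mem_of_mem_erase hj))
      rw [h3]
      exact h4.trans (pow_le_pow_left₀ h6 h5 2)
    nlinarith
  have h2 : ∑ i ∈ s, w i * (1 / 2 + G / 2 - γ i) ≤ ∑ i ∈ s, w i * (1 - γ i) ^ 2 :=
    sum_le_sum (fun i hi => mul_le_mul_of_nonneg_left (h1 i hi) (hw i hi))
  have h3 : ∑ i ∈ s, w i * (1 / 2 + G / 2 - γ i) = (1 / 2 + G / 2) * W - ∑ i ∈ s, w i * γ i := by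
    rw [hW, mul_sum, ← sum_sub_distrib]
    apply sum_congr rfl
    intro i _
    ring
  have h4 : 0 ≤ ∑ i ∈ s, (W * γ i - w i) ^ 2 := sum_nonneg (fun i _ => sq_nonneg _)
  have h5 : ∑ i ∈ s, (W * γ i - w i) ^ 2 = W ^ 2 * G - 2 * W * (∑ i ∈ s, w i * γ i) +
      ∑ i ∈ s, w i ^ 2 := by
    rw [hG, mul_sum, mul_sum, ← sum_sub_distrib, ← sum_add_distrib]
    apply sum_congr rfl
    intro i _
    ring
  have h6 := mul_le_mul_of_nonneg_left h2 (show (0 : ℝ) ≤ 2 * W by linarith)
  rw [h3] at h6
  nlinarith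

theorem motzkin_straus (hsymm : ∀ a b, R a b → R b a) (hirr : ∀ a, ¬ R a a) (γ : ι → ℝ)
    (hγ0 : ∀ i, 0 ≤ γ i)
    (hclique : ∀ T : Finset ι, (∀ i ∈ T, ∀ j ∈ T, i ≠ j → R i j) → ∑ i ∈ T, γ i ≤ 1) :
    ∀ (m : ℕ) (s : Finset ι), s.card = m → ∀ w : ι → ℝ, (∀ i ∈ s, 0 ≤ w i) →
      pairSum R s w ≤ 2 * (∑ i ∈ s, w i) * ∑ i ∈ s, w i * (1 - γ i) ^ 2 := by
  intro m
  induction m with
  | zero =>
    intro s hs w _
    rw [card_eq_zero] at hs
    subst hs
    simp [pairSum]
  | succ m ih =>
    intro s hs w hw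
    by_cases hall : ∀ i ∈ s, ∀ j ∈ s, i ≠ j → R i j
    · have h1 := clique_ineq s w γ (fun i _ => hγ0 i) (hclique s hall) hw
      refine le_trans (le_of_eq ?_) h1
      unfold pairSum
      have h2 : ∀ a ∈ s, ∑ b ∈ s, (if R a b then w a * w b else 0) =
          w a * (∑ b ∈ s, w b) - w a ^ 2 := by
        intro a ha
        rw [← add_sum_erase s _ ha, if_neg (hirr a), zero_add, ← add_sum_erase s (fun b => w b) ha]
        have h3 : ∑ b ∈ s.erase a, (if R a b then w a * w b else 0) = ∑ b ∈ s.erase a, w a * w b := by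
          apply sum_congr rfl
          intro b hb
          rw [if_pos (hall a ha b (mem_of_mem_erase hb) (ne_of_mem_erase hb).symm)]
        rw [h3, ← mul_sum]
        ring
      rw [sum_congr rfl h2, sum_sub_distrib, ← sum_mul, sq]
    · push Not at hall
      -- a shifting step
      have key : ∀ i ∈ s, ∀ j ∈ s, i ≠ j → ¬ R i j →
          (∑ b ∈ s, w b) * (1 - γ j) ^ 2 - (∑ b ∈ (s.erase i).erase j, if R j b then w b else 0) ≤
          (∑ b ∈ s, w b) * (1 - γ i) ^ 2 - (∑ b ∈ (s.erase i).erase j, if R i b then w b else 0) →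
          pairSum R s w ≤ 2 * (∑ i ∈ s, w i) * ∑ i ∈ s, w i * (1 - γ i) ^ 2 := by
        intro i hi j hj hij hRij hA
        set t := (s.erase i).erase j with ht
        have hjt : j ∉ t := notMem_erase _ _
        have hjs : j ∈ s.erase i := mem_erase.mpr ⟨hij.symm, hj⟩
        have hit : i ∉ insert j t := by
          rw [ht, insert_erase hjs]; exact notMem_erase _ _
        have hit' : i ∉ t := fun h => hit (mem_insert_of_mem h)
        have hs' : s = insert i (insert j t) := by
          rw [ht, insert_erase hjs, insert_erase hi]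
        -- the new weights
        set w' : ι → ℝ := fun b => if b = j then w i + w j else w b with hw'
        have hw'j : w' j = w i + w j := by simp [hw']
        have hw't : ∀ b ∈ t, w' b = w b := by
          intro b hb
          have : b ≠ j := fun h => hjt (h ▸ hb)
          simp [hw', this]
        have hcard : (insert j t).card = m := by
          have h1 := card_insert_of_notMem hit
          rw [← hs', hs] at h1
          omega
        have h1 := ih (insert j t) hcard w' (by
          intro b hb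
          rw [mem_insert] at hb
          rcases hb with rfl | hb
          · rw [hw'j]; exact add_nonneg (hw i hi) (hw _ hj)
          · rw [hw't b hb]
            exact hw b (by rw [hs']; exact mem_insert_of_mem (mem_insert_of_mem hb)))
        rw [pairSum_insert R hsymm hirr t j hjt w', sum_insert hjt, sum_insert hjt, hw'j] at h1
        have h2 : pairSum R t w' = pairSum R t w := by
          unfold pairSum
          apply sum_congr rfl
          intro a ha
          apply sum_congr rfl
          intro b hb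
          rw [hw't a ha, hw't b hb]
        have h3 : ∑ b ∈ t, (if R j b then w' b else 0) = ∑ b ∈ t, (if R j b then w b else 0) := by
          apply sum_congr rfl
          intro b hb
          rw [hw't b hb]
        have h4 : ∑ b ∈ t, w' b = ∑ b ∈ t, w b := sum_congr rfl hw't
        have h5 : ∑ b ∈ t, w' b * (1 - γ b) ^ 2 = ∑ b ∈ t, w b * (1 - γ b) ^ 2 :=
          sum_congr rfl (fun b hb => by rw [hw't b hb])
        rw [h2, h3, h4, h5] at h1
        have h6 : ∑ b ∈ s, w b = w i + (w j + ∑ b ∈ t, w b) := by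
          rw [hs', sum_insert hit, sum_insert hjt]
        have h7 : ∑ b ∈ s, w b * (1 - γ b) ^ 2 =
            w i * (1 - γ i) ^ 2 + (w j * (1 - γ j) ^ 2 + ∑ b ∈ t, w b * (1 - γ b) ^ 2) := by
          rw [hs', sum_insert hit, sum_insert hjt]
        have h8 : pairSum R s w = pairSum R t w + 2 * (w j * ∑ b ∈ t, if R j b then w b else 0) +
            2 * (w i * ∑ b ∈ t, if R i b then w b else 0) := by
          rw [hs', pairSum_insert R hsymm hirr _ i hit w, pairSum_insert R hsymm hirr t j hjt w,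
            sum_insert hjt, if_neg hRij, zero_add]
        rw [h7, h8]
        rw [h6] at hA ⊢
        set W := w i + (w j + ∑ b ∈ t, w b) with hWdef
        have h9 : w i + w j + ∑ b ∈ t, w b = W := by rw [hWdef]; ring
        rw [h9] at h1
        have hA' := mul_le_mul_of_nonneg_left hA (hw i hi)
        nlinarith
      obtain ⟨i, hi, j, hj, hij, hR⟩ := hall
      rcases le_total ((∑ b ∈ s, w b) * (1 - γ j) ^ 2 -
          (∑ b ∈ (s.erase i).erase j, if R j b then w b else 0))
          ((∑ b ∈ s, w b) * (1 - γ i) ^ 2 -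
          (∑ b ∈ (s.erase i).erase j, if R i b then w b else 0)) with h | h
      · exact key i hi j hj hij hR h
      · apply key j hj i hi hij.symm (fun h' => hR (hsymm _ _ h'))
        rw [erase_right_comm]
        exact h

end MS


/-! ### The core inequality over cells -/

section Core

theorem filter_threshold (k : ℕ) (U : ℕ → Prop) [DecidablePred U]
    (hU : ∀ i j, i ≤ j → j < k → U i → U j) (i : ℕ) (hi : i < k) :
    U i ↔ k - ((range k).filter U).card ≤ i := by
  constructor
  · intro h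
    have h1 : Ico i k ⊆ (range k).filter U := by
      intro j hj
      rw [mem_Ico] at hj
      rw [mem_filter, mem_range]
      exact ⟨hj.2, hU i j hj.1 hj.2 h⟩
    have h2 := card_le_card h1
    rw [Nat.card_Ico] at h2
    omega
  · intro h
    by_contra hcon
    have h1 : (range k).filter U ⊆ Ico (i + 1) k := by
      intro j hj
      rw [mem_filter, mem_range] at hj
      rw [mem_Ico]
      refine ⟨?_, hj.1⟩
      by_contra hji
      exact hcon (hU j i (by omega) hi hj.2)
    have h2 := card_le_card h1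
    rw [Nat.card_Ico] at h2
    omega

theorem comb01 (k : ℕ) (U V : ℕ → Prop) [DecidablePred U] [DecidablePred V]
    (hU : ∀ i j, i ≤ j → j ≤ k → U i → U j) (hV : ∀ i j, i ≤ j → j ≤ k → V i → V j)
    (hV0 : ¬ V 0) :
    ∑ i ∈ range k, (if U (i + 1) then (1 : ℝ) else 0) *
      ((if V (k - i) then (1 : ℝ) else 0) - (if V (k - 1 - i) then (1 : ℝ) else 0)) =
    if k + 1 ≤ ((range k).filter (fun i => U (i + 1))).card +
      ((range k).filter (fun i => V (i + 1))).card then 1 else 0 := by
  set P := ((range k).filter (fun i => U (i + 1))).card with hP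
  set Q := ((range k).filter (fun i => V (i + 1))).card with hQ
  have hPk : P ≤ k := by
    have := card_filter_le (range k) (fun i => U (i + 1))
    rwa [card_range] at this
  have hQk : Q ≤ k := by
    have := card_filter_le (range k) (fun i => V (i + 1))
    rwa [card_range] at this
  have hU' : ∀ i, i < k → (U (i + 1) ↔ k - P ≤ i) := fun i hi =>
    filter_threshold k (fun i => U (i + 1)) (fun i j hij hj h => hU _ _ (by omega) (by omega) h) i hi
  have hV' : ∀ i, i < k → (V (i + 1) ↔ k - Q ≤ i) := fun i hi =>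
    filter_threshold k (fun i => V (i + 1)) (fun i j hij hj h => hV _ _ (by omega) (by omega) h) i hi
  have hterm : ∀ i ∈ range k, (if U (i + 1) then (1 : ℝ) else 0) *
      ((if V (k - i) then (1 : ℝ) else 0) - (if V (k - 1 - i) then (1 : ℝ) else 0)) =
      if i = Q - 1 then (if k + 1 ≤ P + Q then 1 else 0) else 0 := by
    intro i hi
    rw [mem_range] at hi
    have h1 : V (k - i) ↔ k - Q ≤ k - 1 - i := by
      have := hV' (k - 1 - i) (by omega)
      rwa [show k - 1 - i + 1 = k - i by omega] at this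
    have h2 : V (k - 1 - i) ↔ (i + 1 < k ∧ k - Q ≤ k - 1 - i - 1) := by
      by_cases h : i + 1 < k
      · have := hV' (k - 1 - i - 1) (by omega)
        rw [show k - 1 - i - 1 + 1 = k - 1 - i by omega] at this
        rw [this]
        simp [h]
      · have h3 : k - 1 - i = 0 := by omega
        rw [h3]
        constructor
        · intro h4; exact absurd h4 hV0
        · intro h4; exact absurd h4.1 h
    have h3 := hU' i hi
    by_cases hQ0 : Q = 0
    · have h4 : ¬ V (k - i) := by rw [h1]; omega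
      have h5 : ¬ V (k - 1 - i) := by rw [h2]; omega
      have h6 : ¬ (k + 1 ≤ P + Q) := by omega
      simp [h4, h5, h6]
    · by_cases hi' : i = Q - 1
      · have h4 : V (k - i) := by rw [h1]; omega
        have h5 : ¬ V (k - 1 - i) := by rw [h2]; omega
        have h6 : U (i + 1) ↔ k + 1 ≤ P + Q := by rw [h3]; omega
        rw [if_pos h4, if_neg h5, if_pos hi']
        by_cases h7 : U (i + 1)
        · rw [if_pos h7, if_pos (h6.mp h7)]; ring
        · rw [if_neg h7, if_neg (fun h8 => h7 (h6.mpr h8))]; ring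
      · have h4 : V (k - i) ↔ V (k - 1 - i) := by rw [h1, h2]; omega
        rw [if_neg hi']
        by_cases h5 : V (k - i)
        · rw [if_pos h5, if_pos (h4.mp h5)]; ring
        · rw [if_neg h5, if_neg (fun h8 => h5 (h4.mpr h8))]; ring
  rw [sum_congr rfl hterm, sum_ite_eq']
  by_cases h : k + 1 ≤ P + Q
  · rw [if_pos (by rw [mem_range]; omega)]
  · rw [if_neg h]; simp

variable (k r : ℕ) (w : ℕ → ℝ) (a c : ℕ → ℕ)

/-- indicator that the cell `e` is to the left of the breakpoint `a i` -/
def uu (i e : ℕ) : ℝ := if e < a i then 1 else 0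

def vv (j e : ℕ) : ℝ := if c j ≤ e then 1 else 0

def pp (e : ℕ) : ℕ := ((range k).filter (fun i => e < a (i + 1))).card

def qq (e : ℕ) : ℕ := ((range k).filter (fun i => c (i + 1) ≤ e)).card

def nn (e : ℕ) : ℝ := (pp k a e : ℝ) + qq k c e

theorem pp_eq (e : ℕ) : (pp k a e : ℝ) = ∑ i ∈ range k, uu a (i + 1) e := by
  unfold pp uu
  rw [card_filter]
  push_cast
  rfl

theorem qq_eq (e : ℕ) : (qq k c e : ℝ) = ∑ i ∈ range k, vv c (i + 1) e := by
  unfold qq vv
  rw [card_filter]
  push_cast
  rfl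

theorem pp_le (e : ℕ) : pp k a e ≤ k := by
  have := card_filter_le (range k) (fun i => e < a (i + 1))
  rwa [card_range] at this

theorem qq_le (e : ℕ) : qq k c e ≤ k := by
  have := card_filter_le (range k) (fun i => c (i + 1) ≤ e)
  rwa [card_range] at this

theorem pp_anti {e e' : ℕ} (h : e ≤ e') : pp k a e' ≤ pp k a e := by
  apply card_le_card
  intro i hi
  rw [mem_filter] at hi ⊢
  exact ⟨hi.1, lt_of_le_of_lt h hi.2⟩

theorem qq_mono {e e' : ℕ} (h : e ≤ e') : qq k c e ≤ qq k c e' := by
  apply card_le_card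
  intro i hi
  rw [mem_filter] at hi ⊢
  exact ⟨hi.1, hi.2.trans h⟩

/-- relation used in the inequality -/
def rel (e e' : ℕ) : Prop :=
  (e < e' ∧ k + 1 ≤ pp k a e + qq k c e') ∨ (e' < e ∧ k + 1 ≤ pp k a e' + qq k c e)

instance : DecidableRel (rel k a c) := fun e e' => by unfold rel; infer_instance

/-- one minus the normalised count, truncated -/
noncomputable def gam (e : ℕ) : ℝ := max 0 (1 - nn k a c e / (k + 1))

theorem clique_sum (T : Finset ℕ) : (∀ i ∈ T, ∀ j ∈ T, i ≠ j → rel k a c i j) →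
    (∑ e ∈ T, ((k : ℝ) + 1 - nn k a c e) ≤ k + 1) ∧
    ∀ e ∈ T, (∀ e' ∈ T, e' ≤ e) → ∑ e ∈ T, ((k : ℝ) + 1 - nn k a c e) ≤ k + 1 - pp k a e := by
  induction T using Finset.induction_on_max with
  | empty =>
    intro _
    refine ⟨?_, ?_⟩
    · simp; positivity
    · intro e he; simp at he
  | insert e T hmax ih =>
    intro hT
    have heT : e ∉ T := fun h => lt_irrefl _ (hmax e h)
    obtain ⟨-, ih2⟩ := ih (fun i hi j hj hij => hT i (mem_insert_of_mem hi) j (mem_insert_of_mem hj) hij)
    have main : ∑ e ∈ insert e T, ((k : ℝ) + 1 - nn k a c e) ≤ k + 1 - pp k a e := by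
      rw [sum_insert heT]
      rcases T.eq_empty_or_nonempty with h | h
      · subst h
        simp only [sum_empty, add_zero, nn]
        have : (0 : ℝ) ≤ qq k c e := Nat.cast_nonneg _
        linarith
      · have h1 := ih2 (T.max' h) (T.max'_mem h) (fun e' he' => T.le_max' e' he')
        have h2 := hT (T.max' h) (mem_insert_of_mem (T.max'_mem h)) e (mem_insert_self _ _)
          (ne_of_lt (hmax _ (T.max'_mem h)))
        have h3 : k + 1 ≤ pp k a (T.max' h) + qq k c e := by
          rcases h2 with h2 | h2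
          · exact h2.2
          · exact absurd h2.1 (not_lt.mpr (hmax _ (T.max'_mem h)).le)
        have h4 : (k : ℝ) + 1 ≤ pp k a (T.max' h) + qq k c e := by exact_mod_cast h3
        simp only [nn] at *
        linarith
    refine ⟨?_, ?_⟩
    · have : (0 : ℝ) ≤ pp k a e := Nat.cast_nonneg _
      linarith
    · intro e' he' hmax'
      have h5 : e' = e := by
        rw [mem_insert] at he'
        rcases he' with h | h
        · exact h
        · exact absurd (hmax' e (mem_insert_self _ _)) (not_le.mpr (hmax e' h))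
      rw [h5]
      exact main

theorem gam_clique (T : Finset ℕ) (hT : ∀ i ∈ T, ∀ j ∈ T, i ≠ j → rel k a c i j) :
    ∑ e ∈ T, gam k a c e ≤ 1 := by
  have hk : (0 : ℝ) < (k : ℝ) + 1 := by positivity
  have h1 : ∑ e ∈ T, gam k a c e = ∑ e ∈ T.filter (fun e => nn k a c e < k + 1),
      (1 - nn k a c e / (k + 1)) := by
    rw [sum_filter]
    apply sum_congr rfl
    intro e _
    unfold gam
    split_ifs with h
    · apply max_eq_right
      rw [sub_nonneg, div_le_one hk]
      exact h.le
    · apply max_eq_left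
      rw [sub_nonpos, one_le_div hk]
      exact not_lt.mp h
  rw [h1]
  have h2 := (clique_sum k a c (T.filter (fun e => nn k a c e < k + 1)) (by
    intro i hi j hj hij
    rw [mem_filter] at hi hj
    exact hT i hi.1 j hj.1 hij)).1
  have h3 : ∑ e ∈ T.filter (fun e => nn k a c e < k + 1), (1 - nn k a c e / (k + 1)) =
      (∑ e ∈ T.filter (fun e => nn k a c e < k + 1), ((k : ℝ) + 1 - nn k a c e)) / (k + 1) := by
    rw [sum_div]
    apply sum_congr rfl
    intro e _
    field_simp
  rw [h3, div_le_one hk]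
  exact h2

/-- the geometric inequality -/
theorem region_bound (hw : ∀ e, 0 ≤ w e) (hw1 : ∑ e ∈ range r, w e = 1 / 2) :
    ∑ e ∈ range r, ∑ e' ∈ range r,
      (if e < e' ∧ k + 1 ≤ pp k a e + qq k c e' then w e * w e' else 0) ≤
    (∑ e ∈ range r, w e * nn k a c e ^ 2) / (2 * ((k : ℝ) + 1) ^ 2) := by
  have hk : (0 : ℝ) < (k : ℝ) + 1 := by positivity
  have h1 := motzkin_straus (rel k a c) (fun e e' h => h.symm) (fun e h => by
    rcases h with h | h <;> exact lt_irrefl _ h.1) (gam k a c) (fun e => le_max_left _ _)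
    (gam_clique k a c) _ (range r) rfl w (fun e _ => hw e)
  rw [hw1] at h1
  have h2 : pairSum (rel k a c) (range r) w = 2 * ∑ e ∈ range r, ∑ e' ∈ range r,
      (if e < e' ∧ k + 1 ≤ pp k a e + qq k c e' then w e * w e' else 0) := by
    unfold pairSum
    have h3 : ∀ e ∈ range r, ∀ e' ∈ range r, (if rel k a c e e' then w e * w e' else 0) =
        (if e < e' ∧ k + 1 ≤ pp k a e + qq k c e' then w e * w e' else 0) +
        (if e' < e ∧ k + 1 ≤ pp k a e' + qq k c e then w e' * w e else 0) := by
      intro e _ e' _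
      unfold rel
      by_cases h4 : e < e' ∧ k + 1 ≤ pp k a e + qq k c e'
      · have h5 : ¬ (e' < e ∧ k + 1 ≤ pp k a e' + qq k c e) := fun h => lt_asymm h.1 h4.1
        rw [if_pos (Or.inl h4), if_pos h4, if_neg h5, add_zero]
      · by_cases h5 : e' < e ∧ k + 1 ≤ pp k a e' + qq k c e
        · rw [if_pos (Or.inr h5), if_neg h4, if_pos h5, zero_add, mul_comm]
        · rw [if_neg (by tauto), if_neg h4, if_neg h5, zero_add]
    rw [sum_congr rfl (fun e he => sum_congr rfl (h3 e he))]
    simp_rw [sum_add_distrib]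
    rw [sum_comm (s := range r) (t := range r) (f := fun e e' =>
      if e' < e ∧ k + 1 ≤ pp k a e' + qq k c e then w e' * w e else 0)]
    ring
  rw [h2] at h1
  have h4 : ∑ e ∈ range r, w e * (1 - gam k a c e) ^ 2 ≤
      (∑ e ∈ range r, w e * nn k a c e ^ 2) / ((k : ℝ) + 1) ^ 2 := by
    rw [sum_div]
    apply sum_le_sum
    intro e _
    rw [mul_div_assoc]
    apply mul_le_mul_of_nonneg_left _ (hw e)
    rw [← div_pow]
    have h5 : 0 ≤ nn k a c e / (k + 1) := by
      unfold nn; positivity
    have h6 : 1 - gam k a c e ≤ nn k a c e / (k + 1) := by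
      have := le_max_right 0 (1 - nn k a c e / (k + 1))
      unfold gam
      linarith
    have h7 : 0 ≤ 1 - gam k a c e := by
      have : gam k a c e ≤ 1 := by
        unfold gam
        exact max_le (by norm_num) (by linarith)
      linarith
    exact pow_le_pow_left₀ h7 h6 2
  have h5 : 2 * (1 / 2 : ℝ) * ∑ e ∈ range r, w e * (1 - gam k a c e) ^ 2 ≤
      (∑ e ∈ range r, w e * nn k a c e ^ 2) / ((k : ℝ) + 1) ^ 2 := by
    rw [show (2 * (1 / 2) : ℝ) = 1 by norm_num, one_mul]
    exact h4
  have h6 := h1.trans h5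
  have h7 : (∑ e ∈ range r, w e * nn k a c e ^ 2) / (2 * ((k : ℝ) + 1) ^ 2) =
      (∑ e ∈ range r, w e * nn k a c e ^ 2) / ((k : ℝ) + 1) ^ 2 / 2 := by
    rw [div_div, mul_comm]
  rw [h7]
  linarith

end Core


section Core2

variable (k r : ℕ) (w : ℕ → ℝ) (a c : ℕ → ℕ)

/-- distance of the right agent `i` from the base point -/
def xx (i : ℕ) : ℝ := ∑ e ∈ range r, w e * uu a i e

/-- distance of the left agent `j` from the base point -/
def yy (j : ℕ) : ℝ := ∑ e ∈ range r, w e * vv c j e

def er (i : ℕ) : ℝ := ∑ e ∈ range r, w e * (uu a i e * (2 * k + 1 - 2 * nn k a c e))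

def el (j : ℕ) : ℝ := ∑ e ∈ range r, w e * (vv c j e * (2 * k + 1 - 2 * nn k a c e))

theorem sum_er_el :
    ∑ i ∈ range k, er k r w a c (i + 1) + ∑ i ∈ range k, el k r w a c (i + 1) =
      (2 * k + 1) * (∑ e ∈ range r, w e * nn k a c e) - 2 * ∑ e ∈ range r, w e * nn k a c e ^ 2 := by
  have h1 : ∑ i ∈ range k, er k r w a c (i + 1) =
      ∑ e ∈ range r, w e * (pp k a e * (2 * k + 1 - 2 * nn k a c e)) := by
    unfold er
    rw [sum_comm]
    apply sum_congr rfl
    intro e _
    rw [← mul_sum, ← sum_mul, pp_eq]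
  have h2 : ∑ i ∈ range k, el k r w a c (i + 1) =
      ∑ e ∈ range r, w e * (qq k c e * (2 * k + 1 - 2 * nn k a c e)) := by
    unfold el
    rw [sum_comm]
    apply sum_congr rfl
    intro e _
    rw [← mul_sum, ← sum_mul, qq_eq]
  rw [h1, h2, ← sum_add_distrib, mul_sum, mul_sum, ← sum_sub_distrib]
  apply sum_congr rfl
  intro e _
  simp only [nn]
  ring

theorem cross1 (hc0 : c 0 = r) (ha : ∀ i j, i ≤ j → j ≤ k → a i ≤ a j)
    (hc : ∀ i j, i ≤ j → j ≤ k → c j ≤ c i) :
    ∑ i ∈ range k, (yy r w c (k - i) - yy r w c (k - 1 - i)) * er k r w a c (i + 1) =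
      ∑ e ∈ range r, ∑ e' ∈ range r, w e * w e' * (2 * k + 1 - 2 * nn k a c e) *
        (if k + 1 ≤ pp k a e + qq k c e' then 1 else 0) := by
  have h1 : ∀ e ∈ range r, ∀ e' ∈ range r,
      w e * w e' * (2 * k + 1 - 2 * nn k a c e) * (if k + 1 ≤ pp k a e + qq k c e' then 1 else 0) =
      ∑ i ∈ range k, (w e' * (vv c (k - i) e' - vv c (k - 1 - i) e')) *
        (w e * (uu a (i + 1) e * (2 * k + 1 - 2 * nn k a c e))) := by
    intro e he e' he'
    rw [mem_range] at he he'
    have h2 := comb01 k (fun i => e < a i) (fun j => c j ≤ e')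
      (fun i j hij hj h => lt_of_lt_of_le h (ha i j hij hj))
      (fun i j hij hj h => (hc i j hij hj).trans h) (by rw [hc0]; exact not_le.mpr he')
    unfold pp qq
    rw [← h2, mul_sum]
    apply sum_congr rfl
    intro i _
    simp only [uu, vv]
    ring
  rw [sum_congr rfl (fun e he => sum_congr rfl (h1 e he))]
  rw [sum_congr rfl (fun e _ => sum_comm), sum_comm]
  apply sum_congr rfl
  intro i _
  unfold yy er
  rw [← sum_sub_distrib, sum_mul, sum_comm]
  apply sum_congr rfl
  intro e' _
  rw [mul_sum]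
  apply sum_congr rfl
  intro e _
  ring

theorem cross2 (ha0 : a 0 = 0) (ha : ∀ i j, i ≤ j → j ≤ k → a i ≤ a j)
    (hc : ∀ i j, i ≤ j → j ≤ k → c j ≤ c i) :
    ∑ i ∈ range k, (xx r w a (k - i) - xx r w a (k - 1 - i)) * el k r w a c (i + 1) =
      ∑ e ∈ range r, ∑ e' ∈ range r, w e * w e' * (2 * k + 1 - 2 * nn k a c e') *
        (if k + 1 ≤ pp k a e + qq k c e' then 1 else 0) := by
  have h1 : ∀ e ∈ range r, ∀ e' ∈ range r,
      w e * w e' * (2 * k + 1 - 2 * nn k a c e') * (if k + 1 ≤ pp k a e + qq k c e' then 1 else 0) =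
      ∑ i ∈ range k, (w e * (uu a (k - i) e - uu a (k - 1 - i) e)) *
        (w e' * (vv c (i + 1) e' * (2 * k + 1 - 2 * nn k a c e'))) := by
    intro e he e' he'
    have h2 := comb01 k (fun i => c i ≤ e') (fun j => e < a j)
      (fun i j hij hj h => (hc i j hij hj).trans h)
      (fun i j hij hj h => lt_of_lt_of_le h (ha i j hij hj)) (by rw [ha0]; exact Nat.not_lt_zero _)
    have h3 : pp k a e + qq k c e' = ((range k).filter (fun i => c (i + 1) ≤ e')).card +
        ((range k).filter (fun i => e < a (i + 1))).card := by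
      unfold pp qq; exact Nat.add_comm _ _
    rw [h3, ← h2, mul_sum]
    apply sum_congr rfl
    intro i _
    simp only [uu, vv]
    ring
  rw [sum_congr rfl (fun e he => sum_congr rfl (h1 e he))]
  rw [sum_congr rfl (fun e _ => sum_comm), sum_comm]
  apply sum_congr rfl
  intro i _
  unfold xx el
  rw [← sum_sub_distrib, sum_mul]
  apply sum_congr rfl
  intro e _
  rw [mul_sum]
  apply sum_congr rfl
  intro e' _
  ring

theorem cross_bound (hw : ∀ e, 0 ≤ w e) :
    (∑ e ∈ range r, ∑ e' ∈ range r, w e * w e' * (2 * k + 1 - 2 * nn k a c e) *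
        (if k + 1 ≤ pp k a e + qq k c e' then 1 else 0)) +
    (∑ e ∈ range r, ∑ e' ∈ range r, w e * w e' * (2 * k + 1 - 2 * nn k a c e') *
        (if k + 1 ≤ pp k a e + qq k c e' then 1 else 0)) ≤
    2 * k * ∑ e ∈ range r, ∑ e' ∈ range r,
      (if e < e' ∧ k + 1 ≤ pp k a e + qq k c e' then w e * w e' else 0) := by
  rw [← sum_add_distrib, mul_sum]
  apply sum_le_sum
  intro e _
  rw [← sum_add_distrib, mul_sum]
  apply sum_le_sum
  intro e' _
  have hww : 0 ≤ w e * w e' := mul_nonneg (hw e) (hw e')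
  by_cases h : k + 1 ≤ pp k a e + qq k c e'
  · have h' : (k : ℝ) + 1 ≤ pp k a e + qq k c e' := by exact_mod_cast h
    rw [if_pos h]
    by_cases h2 : e < e'
    · rw [if_pos ⟨h2, h⟩]
      have h3 : (0 : ℝ) ≤ pp k a e' := Nat.cast_nonneg _
      have h4 : (0 : ℝ) ≤ qq k c e := Nat.cast_nonneg _
      have h5 : (2 * (k : ℝ) + 1 - 2 * nn k a c e) + (2 * k + 1 - 2 * nn k a c e') ≤ 2 * k := by
        simp only [nn]; linarith
      nlinarith
    · rw [if_neg (fun h3 => h2 h3.1)]
      have h3 : (pp k a e : ℝ) ≤ pp k a e' := by exact_mod_cast pp_anti k a (not_lt.mp h2)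
      have h4 : (qq k c e' : ℝ) ≤ qq k c e := by exact_mod_cast qq_mono k c (not_lt.mp h2)
      have h5 : (2 * (k : ℝ) + 1 - 2 * nn k a c e) + (2 * k + 1 - 2 * nn k a c e') ≤ 0 := by
        simp only [nn]; linarith
      nlinarith
  · rw [if_neg h, if_neg (fun h3 => h h3.2)]
    simp

theorem tele (v : ℕ → ℝ) (k : ℕ) : ∑ i ∈ range k, (v (k - i) - v (k - 1 - i)) = v k - v 0 := by
  have h1 := Finset.sum_range_reflect (fun i => v (i + 1) - v i) k
  rw [← Finset.sum_range_sub v k, ← h1]
  apply sum_congr rfl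
  intro i hi
  rw [mem_range] at hi
  rw [show k - 1 - i + 1 = k - i by omega]

theorem core_ineq (hk : 1 ≤ k) (hw : ∀ e, 0 ≤ w e) (hw1 : ∑ e ∈ range r, w e = 1 / 2)
    (ha0 : a 0 = 0) (hc0 : c 0 = r) (ha : ∀ i j, i ≤ j → j ≤ k → a i ≤ a j)
    (hc : ∀ i j, i ≤ j → j ≤ k → c j ≤ c i) (S : ℝ)
    (hS : S = ∑ e ∈ range r, w e * nn k a c e) (hpos : 0 < S) :
    (S + ∑ i ∈ range k, (S + er k r w a c (i + 1)) + ∑ i ∈ range k, (S + el k r w a c (i + 1))) /
        (2 * k + 1) +
      ((1 - xx r w a k - yy r w c k) * S +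
      ∑ i ∈ range k, (yy r w c (k - i) - yy r w c (k - 1 - i)) * (S + er k r w a c (i + 1)) +
      ∑ i ∈ range k, (xx r w a (k - i) - xx r w a (k - 1 - i)) * (S + el k r w a c (i + 1))) <
    3 * S := by
  have hkR : (1 : ℝ) ≤ k := by exact_mod_cast hk
  set Q := ∑ e ∈ range r, w e * nn k a c e ^ 2 with hQ
  have hx0 : xx r w a 0 = 0 := by
    unfold xx uu
    rw [ha0]
    simp
  have hy0 : yy r w c 0 = 0 := by
    unfold yy vv
    rw [hc0]
    apply sum_eq_zero
    intro e he
    rw [mem_range] at he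
    rw [if_neg (not_le.mpr he), mul_zero]
  have h1 := sum_er_el k r w a c
  rw [← hS, ← hQ] at h1
  have h2 : (S + ∑ i ∈ range k, (S + er k r w a c (i + 1)) +
      ∑ i ∈ range k, (S + el k r w a c (i + 1))) / (2 * k + 1) = 2 * S - 2 * Q / (2 * k + 1) := by
    rw [sum_add_distrib, sum_add_distrib, sum_const, card_range, nsmul_eq_mul]
    have h3 : S + ((k : ℝ) * S + ∑ i ∈ range k, er k r w a c (i + 1)) +
        ((k : ℝ) * S + ∑ i ∈ range k, el k r w a c (i + 1)) = 2 * ((2 * k + 1) * S) - 2 * Q := by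
      linarith
    rw [h3]
    field_simp
  have h3 : ∑ i ∈ range k, (yy r w c (k - i) - yy r w c (k - 1 - i)) * (S + er k r w a c (i + 1)) =
      yy r w c k * S +
      ∑ i ∈ range k, (yy r w c (k - i) - yy r w c (k - 1 - i)) * er k r w a c (i + 1) := by
    simp_rw [mul_add]
    rw [sum_add_distrib, ← sum_mul, tele (yy r w c) k, hy0, sub_zero]
  have h4 : ∑ i ∈ range k, (xx r w a (k - i) - xx r w a (k - 1 - i)) * (S + el k r w a c (i + 1)) =
      xx r w a k * S +
      ∑ i ∈ range k, (xx r w a (k - i) - xx r w a (k - 1 - i)) * el k r w a c (i + 1) := by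
    simp_rw [mul_add]
    rw [sum_add_distrib, ← sum_mul, tele (xx r w a) k, hx0, sub_zero]
  have h5 := cross_bound k r w a c hw
  rw [← cross1 k r w a c hc0 ha hc, ← cross2 k r w a c ha0 ha hc] at h5
  have h6 := region_bound k r w a c hw hw1
  rw [← hQ] at h6
  have hQpos : 0 < Q := by
    by_contra hcon
    have h7 : Q = 0 := le_antisymm (not_lt.mp hcon)
      (sum_nonneg (fun e _ => mul_nonneg (hw e) (sq_nonneg _)))
    have h8 := (sum_eq_zero_iff_of_nonneg (fun e _ => mul_nonneg (hw e) (sq_nonneg _))).mp h7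
    have h9 : S = 0 := by
      rw [hS]
      apply sum_eq_zero
      intro e he
      rcases mul_eq_zero.mp (h8 e he) with h | h
      · rw [h, zero_mul]
      · rw [pow_eq_zero_iff (by norm_num)] at h
        rw [h, mul_zero]
    linarith
  have h7 : 2 * (k : ℝ) * (Q / (2 * ((k : ℝ) + 1) ^ 2)) < 2 * Q / (2 * k + 1) := by
    rw [show 2 * (k : ℝ) * (Q / (2 * ((k : ℝ) + 1) ^ 2)) = (k * Q) / ((k : ℝ) + 1) ^ 2 by
      field_simp]
    rw [div_lt_div_iff₀ (by positivity) (by positivity)]
    nlinarith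
  have h8 : 2 * (k : ℝ) * ∑ e ∈ range r, ∑ e' ∈ range r,
      (if e < e' ∧ k + 1 ≤ pp k a e + qq k c e' then w e * w e' else 0) ≤
      2 * (k : ℝ) * (Q / (2 * ((k : ℝ) + 1) ^ 2)) :=
    mul_le_mul_of_nonneg_left h6 (by positivity)
  rw [h2, h3, h4]
  linarith

end Core2


/-! ### From positions to cells -/

section Geo

theorem exists_cells (k : ℕ) (x y : ℕ → ℝ) (hx0 : x 0 = 0) (hy0 : y 0 = 0)
    (hx : ∀ i j, i ≤ j → j ≤ k → x i ≤ x j) (hy : ∀ i j, i ≤ j → j ≤ k → y i ≤ y j)
    (hxk : x k ≤ 1 / 2) (hyk : y k ≤ 1 / 2) :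
    ∃ (r : ℕ) (z : ℕ → ℝ) (a c : ℕ → ℕ), Monotone z ∧ z 0 = 0 ∧ z r = 1 / 2 ∧ a 0 = 0 ∧ c 0 = r ∧
      (∀ i ≤ k, a i ≤ r ∧ z (a i) = x i) ∧ (∀ j ≤ k, c j ≤ r ∧ z (c j) = 1 / 2 - y j) ∧
      (∀ i j, i ≤ j → j ≤ k → a i ≤ a j) ∧ (∀ i j, i ≤ j → j ≤ k → c j ≤ c i) := by
  classical
  set B : Finset ℝ := (range (k + 1)).image x ∪ (range (k + 1)).image (fun j => 1 / 2 - y j) with hB
  have hB0 : (0 : ℝ) ∈ B := by
    rw [hB, mem_union]
    left
    rw [mem_image]
    exact ⟨0, by simp, hx0⟩
  have hB1 : (1 / 2 : ℝ) ∈ B := by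
    rw [hB, mem_union]
    right
    rw [mem_image]
    exact ⟨0, by simp, by rw [hy0]; ring⟩
  have hBr : ∀ b ∈ B, 0 ≤ b ∧ b ≤ 1 / 2 := by
    intro b hb
    rw [hB, mem_union, mem_image, mem_image] at hb
    rcases hb with ⟨i, hi, rfl⟩ | ⟨i, hi, rfl⟩
    · rw [mem_range] at hi
      have h1 := hx 0 i (Nat.zero_le _) (by omega)
      have h2 := hx i k (by omega) le_rfl
      rw [hx0] at h1
      exact ⟨h1, h2.trans hxk⟩
    · rw [mem_range] at hi
      have h1 := hy 0 i (Nat.zero_le _) (by omega)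
      have h2 := hy i k (by omega) le_rfl
      rw [hy0] at h1
      constructor <;> linarith
  have hcard : 0 < B.card := card_pos.mpr ⟨0, hB0⟩
  set f := B.orderEmbOfFin (rfl : B.card = B.card) with hf
  have hfmem : ∀ i, f i ∈ B := fun i => B.orderEmbOfFin_mem rfl i
  have hfsurj : ∀ b ∈ B, ∃ i, f i = b := by
    intro b hb
    have : b ∈ Set.range f := by rw [hf, Finset.range_orderEmbOfFin]; exact hb
    exact this
  set z : ℕ → ℝ := fun e => if h : e < B.card then f ⟨e, h⟩ else 1 / 2 with hz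
  have hzf : ∀ i : Fin B.card, z i = f i := by
    intro i
    simp [hz]
  have hzmono : Monotone z := by
    intro e e' hee
    simp only [hz]
    split_ifs with h1 h2 h2
    · exact f.monotone hee
    · exact (hBr _ (hfmem _)).2
    · omega
    · exact le_rfl
  have hxB : ∀ i, i ≤ k → x i ∈ B := by
    intro i hi
    rw [hB, mem_union]; left
    exact mem_image_of_mem x (by rw [mem_range]; omega)
  have hyB : ∀ i, i ≤ k → 1 / 2 - y i ∈ B := by
    intro i hi
    rw [hB, mem_union]; right
    exact mem_image_of_mem (fun j => 1 / 2 - y j) (by rw [mem_range]; omega)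
  have ha' : ∀ i : ℕ, ∃ m : Fin B.card, i ≤ k → f m = x i := by
    intro i
    by_cases hi : i ≤ k
    · obtain ⟨m, hm⟩ := hfsurj _ (hxB i hi)
      exact ⟨m, fun _ => hm⟩
    · exact ⟨⟨0, hcard⟩, fun h => absurd h hi⟩
  have hc' : ∀ i : ℕ, ∃ m : Fin B.card, i ≤ k → f m = 1 / 2 - y i := by
    intro i
    by_cases hi : i ≤ k
    · obtain ⟨m, hm⟩ := hfsurj _ (hyB i hi)
      exact ⟨m, fun _ => hm⟩
    · exact ⟨⟨0, hcard⟩, fun h => absurd h hi⟩
  choose a ha using ha'
  choose c hc using hc'
  have hf0 : f ⟨0, hcard⟩ = 0 := by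
    obtain ⟨i, hi⟩ := hfsurj 0 hB0
    have h1 : f ⟨0, hcard⟩ ≤ f i := f.monotone (by rw [Fin.le_def]; exact Nat.zero_le _)
    have h2 := (hBr _ (hfmem ⟨0, hcard⟩)).1
    linarith
  have hf1 : f ⟨B.card - 1, by omega⟩ = 1 / 2 := by
    obtain ⟨i, hi⟩ := hfsurj _ hB1
    have h1 : f i ≤ f ⟨B.card - 1, by omega⟩ := f.monotone (by
      rw [Fin.le_def]
      have := i.isLt
      show (i : ℕ) ≤ B.card - 1
      omega)
    have h2 := (hBr _ (hfmem ⟨B.card - 1, by omega⟩)).2
    linarith
  refine ⟨B.card - 1, z, fun i => a i, fun j => c j, hzmono, ?_, ?_, ?_, ?_, ?_, ?_, ?_, ?_⟩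
  · have := hzf ⟨0, hcard⟩
    simp only at this
    rw [this, hf0]
  · have := hzf ⟨B.card - 1, by omega⟩
    simp only at this
    rw [this, hf1]
  · have h1 := ha 0 (Nat.zero_le _)
    rw [hx0, ← hf0] at h1
    have h2 := f.injective h1
    simp [h2]
  · have h1 := hc 0 (Nat.zero_le _)
    rw [hy0, sub_zero, ← hf1] at h1
    have h2 := f.injective h1
    simp [h2]
  · intro i hi
    refine ⟨?_, ?_⟩
    · have := (a i).isLt
      show ((a i : Fin B.card) : ℕ) ≤ B.card - 1
      omega
    · rw [hzf, ha i hi]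
  · intro i hi
    refine ⟨?_, ?_⟩
    · have := (c i).isLt
      show ((c i : Fin B.card) : ℕ) ≤ B.card - 1
      omega
    · rw [hzf, hc i hi]
  · intro i j hij hj
    have h1 : f (a i) ≤ f (a j) := by
      rw [ha i (by omega), ha j hj]
      exact hx i j hij hj
    exact f.le_iff_le.mp h1
  · intro i j hij hj
    have h1 : f (c j) ≤ f (c i) := by
      rw [hc i (by omega), hc j hj]
      have := hy i j hij hj
      linarith
    exact f.le_iff_le.mp h1

variable (r : ℕ) (z : ℕ → ℝ)

theorem sum_cells_lt (m : ℕ) (hm : m ≤ r) :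
    ∑ e ∈ range r, (z (e + 1) - z e) * (if e < m then 1 else 0) = z m - z 0 := by
  rw [← Finset.sum_range_sub z m]
  simp_rw [mul_ite, mul_one, mul_zero]
  rw [← sum_filter]
  apply sum_congr _ (fun _ _ => rfl)
  ext e
  simp only [mem_filter, mem_range]
  omega

theorem sum_cells_ge (m : ℕ) (hm : m ≤ r) :
    ∑ e ∈ range r, (z (e + 1) - z e) * (if m ≤ e then 1 else 0) = z r - z m := by
  have h1 : ∑ e ∈ range r, (z (e + 1) - z e) * (if m ≤ e then (1 : ℝ) else 0) +
      ∑ e ∈ range r, (z (e + 1) - z e) * (if e < m then (1 : ℝ) else 0) =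
      ∑ e ∈ range r, (z (e + 1) - z e) := by
    rw [← sum_add_distrib]
    apply sum_congr rfl
    intro e _
    by_cases h : m ≤ e
    · rw [if_pos h, if_neg (not_lt.mpr h)]; ring
    · rw [if_neg h, if_pos (not_le.mp h)]; ring
  rw [sum_cells_lt r z m hm, Finset.sum_range_sub] at h1
  linarith

theorem sum_cells_between (hz : Monotone z) (m l : ℕ) (hm : m ≤ r) (hl : l ≤ r) :
    ∑ e ∈ range r, (z (e + 1) - z e) * ((if e < m then 1 else 0) * (if l ≤ e then 1 else 0)) =
      max 0 (z m - z l) := by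
  rcases le_total m l with h | h
  · have h1 : ∑ e ∈ range r, (z (e + 1) - z e) *
        ((if e < m then (1 : ℝ) else 0) * (if l ≤ e then 1 else 0)) = 0 := by
      apply sum_eq_zero
      intro e _
      by_cases h2 : e < m
      · rw [if_neg (show ¬ l ≤ e by omega)]; ring
      · rw [if_neg h2]; ring
    rw [h1, max_eq_left]
    have := hz h
    linarith
  · have h1 : ∑ e ∈ range r, (z (e + 1) - z e) *
        ((if e < m then (1 : ℝ) else 0) * (if l ≤ e then 1 else 0)) =
        ∑ e ∈ range r, (z (e + 1) - z e) * (if e < m then (1 : ℝ) else 0) -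
        ∑ e ∈ range r, (z (e + 1) - z e) * (if e < l then (1 : ℝ) else 0) := by
      rw [← sum_sub_distrib]
      apply sum_congr rfl
      intro e _
      by_cases h2 : e < l
      · rw [if_neg (show ¬ l ≤ e by omega), if_pos h2, if_pos (show e < m by omega)]; ring
      · rw [if_pos (show l ≤ e by omega), if_neg h2]; ring
    rw [h1, sum_cells_lt r z m hm, sum_cells_lt r z l hl, max_eq_right]
    · ring
    · have := hz h
      linarith

/-- the circle norm of a real number of absolute value at most one -/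
noncomputable def mm (u : ℝ) : ℝ := min |u| (1 - |u|)

theorem mm_eq {u : ℝ} (h0 : 0 ≤ u) : mm u = u - 2 * max 0 (u - 1 / 2) := by
  unfold mm
  rw [abs_of_nonneg h0]
  rcases le_total u (1 / 2) with h | h
  · rw [min_eq_left (by linarith), max_eq_left (by linarith)]; ring
  · rw [min_eq_right (by linarith), max_eq_right (by linarith)]; ring

/-- The inequality in terms of positions. -/
theorem position_ineq (k : ℕ) (hk : 1 ≤ k) (x y : ℕ → ℝ) (hx0 : x 0 = 0) (hy0 : y 0 = 0)
    (hx : ∀ i j, i ≤ j → j ≤ k → x i ≤ x j) (hy : ∀ i j, i ≤ j → j ≤ k → y i ≤ y j)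
    (hxk : x k ≤ 1 / 2) (hyk : y k ≤ 1 / 2) (S : ℝ)
    (hS : S = ∑ i ∈ range k, x (i + 1) + ∑ i ∈ range k, y (i + 1)) (hpos : 0 < S)
    (FR FL : ℕ → ℝ)
    (hFR : ∀ i < k, FR i = ∑ j ∈ range k, |x (i + 1) - x (j + 1)| + x (i + 1) +
      ∑ j ∈ range k, mm (x (i + 1) + y (j + 1)))
    (hFL : ∀ i < k, FL i = ∑ j ∈ range k, |y (i + 1) - y (j + 1)| + y (i + 1) +
      ∑ j ∈ range k, mm (x (j + 1) + y (i + 1))) :
    (S + ∑ i ∈ range k, FR i + ∑ i ∈ range k, FL i) / (2 * k + 1) +
      ((1 - x k - y k) * S +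
      ∑ i ∈ range k, (y (k - i) - y (k - 1 - i)) * FR i +
      ∑ i ∈ range k, (x (k - i) - x (k - 1 - i)) * FL i) < 3 * S := by
  obtain ⟨r, z, a, c, hz, hz0, hzr, ha0, hc0, ha, hc, haa, hcc⟩ :=
    exists_cells k x y hx0 hy0 hx hy hxk hyk
  set w : ℕ → ℝ := fun e => z (e + 1) - z e with hw
  have hw0 : ∀ e, 0 ≤ w e := fun e => sub_nonneg.mpr (hz (Nat.le_succ e))
  have hw1 : ∑ e ∈ range r, w e = 1 / 2 := by
    rw [hw, Finset.sum_range_sub, hz0, hzr, sub_zero]
  have hxx : ∀ i ≤ k, xx r w a i = x i := by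
    intro i hi
    unfold xx uu
    rw [hw]
    simp only
    rw [sum_cells_lt r z (a i) (ha i hi).1, (ha i hi).2, hz0, sub_zero]
  have hyy : ∀ j ≤ k, yy r w c j = y j := by
    intro j hj
    unfold yy vv
    rw [hw]
    simp only
    rw [sum_cells_ge r z (c j) (hc j hj).1, (hc j hj).2, hzr]
    ring
  have hxy : ∀ i ≤ k, ∀ j ≤ k, ∑ e ∈ range r, w e * (uu a i e * vv c j e) =
      max 0 (x i + y j - 1 / 2) := by
    intro i hi j hj
    unfold uu vv
    rw [hw]
    simp only
    rw [sum_cells_between r z hz (a i) (c j) (ha i hi).1 (hc j hj).1, (ha i hi).2, (hc j hj).2]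
    congr 1
    ring
  have hxm : ∀ i ≤ k, ∀ j ≤ k, ∑ e ∈ range r, w e * (uu a i e * uu a j e) = min (x i) (x j) := by
    intro i hi j hj
    have h1 : ∀ e, uu a i e * uu a j e = if e < min (a i) (a j) then 1 else 0 := by
      intro e
      unfold uu
      by_cases h2 : e < a i
      · by_cases h3 : e < a j
        · rw [if_pos h2, if_pos h3, if_pos (lt_min h2 h3)]; ring
        · rw [if_neg h3, if_neg (fun h4 => h3 (lt_of_lt_of_le h4 (min_le_right _ _)))]; ring
      · rw [if_neg h2, if_neg (fun h4 => h2 (lt_of_lt_of_le h4 (min_le_left _ _)))]; ring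
    simp_rw [h1]
    rw [hw]
    simp only
    rw [sum_cells_lt r z _ ((min_le_left _ _).trans (ha i hi).1), hz0, sub_zero,
      hz.map_min, (ha i hi).2, (ha j hj).2]
  have hym : ∀ i ≤ k, ∀ j ≤ k, ∑ e ∈ range r, w e * (vv c i e * vv c j e) = min (y i) (y j) := by
    intro i hi j hj
    have h1 : ∀ e, vv c i e * vv c j e = if max (c i) (c j) ≤ e then 1 else 0 := by
      intro e
      unfold vv
      by_cases h2 : c i ≤ e
      · by_cases h3 : c j ≤ e
        · rw [if_pos h2, if_pos h3, if_pos (max_le h2 h3)]; ring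
        · rw [if_neg h3, if_neg (fun h4 => h3 ((le_max_right _ _).trans h4))]; ring
      · rw [if_neg h2, if_neg (fun h4 => h2 ((le_max_left _ _).trans h4))]; ring
    simp_rw [h1]
    rw [hw]
    simp only
    rw [sum_cells_ge r z _ (max_le (hc i hi).1 (hc j hj).1), hzr,
      hz.map_max, (hc i hi).2, (hc j hj).2]
    rcases le_total (y i) (y j) with h | h
    · rw [min_eq_left h, max_eq_left (by linarith)]; ring
    · rw [min_eq_right h, max_eq_right (by linarith)]; ring
  have habs : ∀ u v : ℝ, |u - v| = u + v - 2 * min u v := by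
    intro u v
    rcases le_total u v with h | h
    · rw [min_eq_left h, abs_of_nonpos (by linarith)]; ring
    · rw [min_eq_right h, abs_of_nonneg (by linarith)]; ring
  have hx_nonneg : ∀ i ≤ k, 0 ≤ x i := fun i hi => by
    have := hx 0 i (Nat.zero_le _) hi
    rwa [hx0] at this
  have hy_nonneg : ∀ i ≤ k, 0 ≤ y i := fun i hi => by
    have := hy 0 i (Nat.zero_le _) hi
    rwa [hy0] at this
  have hSe : S = ∑ e ∈ range r, w e * nn k a c e := by
    have h1 : ∑ i ∈ range k, x (i + 1) = ∑ e ∈ range r, w e * pp k a e := by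
      simp_rw [pp_eq, mul_sum]
      rw [sum_comm]
      apply sum_congr rfl
      intro i hi
      rw [mem_range] at hi
      exact (hxx (i + 1) hi).symm
    have h2 : ∑ i ∈ range k, y (i + 1) = ∑ e ∈ range r, w e * qq k c e := by
      simp_rw [qq_eq, mul_sum]
      rw [sum_comm]
      apply sum_congr rfl
      intro i hi
      rw [mem_range] at hi
      exact (hyy (i + 1) hi).symm
    rw [hS, h1, h2, ← sum_add_distrib]
    apply sum_congr rfl
    intro e _
    simp only [nn]
    ring
  have hR : ∀ i < k, FR i = S + er k r w a c (i + 1) := by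
    intro i hi
    have h1 : ∑ j ∈ range k, |x (i + 1) - x (j + 1)| =
        k * x (i + 1) + ∑ j ∈ range k, x (j + 1) -
          2 * ∑ e ∈ range r, w e * (uu a (i + 1) e * pp k a e) := by
      have h2 : ∑ e ∈ range r, w e * (uu a (i + 1) e * pp k a e) =
          ∑ j ∈ range k, min (x (i + 1)) (x (j + 1)) := by
        simp_rw [pp_eq, mul_sum]
        rw [sum_comm]
        apply sum_congr rfl
        intro j hj
        rw [mem_range] at hj
        exact hxm (i + 1) hi (j + 1) hj
      rw [h2, mul_sum]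
      simp_rw [habs]
      rw [sum_sub_distrib, sum_add_distrib, sum_const, card_range, nsmul_eq_mul]
    have h3 : ∑ j ∈ range k, mm (x (i + 1) + y (j + 1)) =
        k * x (i + 1) + ∑ j ∈ range k, y (j + 1) -
          2 * ∑ e ∈ range r, w e * (uu a (i + 1) e * qq k c e) := by
      have h2 : ∑ e ∈ range r, w e * (uu a (i + 1) e * qq k c e) =
          ∑ j ∈ range k, max 0 (x (i + 1) + y (j + 1) - 1 / 2) := by
        simp_rw [qq_eq, mul_sum]
        rw [sum_comm]
        apply sum_congr rfl
        intro j hj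
        rw [mem_range] at hj
        exact hxy (i + 1) hi (j + 1) hj
      rw [h2, mul_sum]
      have h4 : ∀ j ∈ range k, mm (x (i + 1) + y (j + 1)) =
          x (i + 1) + y (j + 1) - 2 * max 0 (x (i + 1) + y (j + 1) - 1 / 2) := by
        intro j hj
        rw [mem_range] at hj
        exact mm_eq (add_nonneg (hx_nonneg _ hi) (hy_nonneg _ hj))
      rw [sum_congr rfl h4, sum_sub_distrib, sum_add_distrib, sum_const, card_range, nsmul_eq_mul]
    have h5 : er k r w a c (i + 1) = (2 * k + 1) * x (i + 1) -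
        2 * ∑ e ∈ range r, w e * (uu a (i + 1) e * pp k a e) -
        2 * ∑ e ∈ range r, w e * (uu a (i + 1) e * qq k c e) := by
      rw [← hxx (i + 1) hi]
      unfold er xx
      rw [mul_sum, mul_sum, mul_sum, ← sum_sub_distrib, ← sum_sub_distrib]
      apply sum_congr rfl
      intro e _
      simp only [nn]
      ring
    rw [hFR i hi, h1, h3, h5, hS]
    ring
  have hL : ∀ i < k, FL i = S + el k r w a c (i + 1) := by
    intro i hi
    have h1 : ∑ j ∈ range k, |y (i + 1) - y (j + 1)| =
        k * y (i + 1) + ∑ j ∈ range k, y (j + 1) -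
          2 * ∑ e ∈ range r, w e * (vv c (i + 1) e * qq k c e) := by
      have h2 : ∑ e ∈ range r, w e * (vv c (i + 1) e * qq k c e) =
          ∑ j ∈ range k, min (y (i + 1)) (y (j + 1)) := by
        simp_rw [qq_eq, mul_sum]
        rw [sum_comm]
        apply sum_congr rfl
        intro j hj
        rw [mem_range] at hj
        exact hym (i + 1) hi (j + 1) hj
      rw [h2, mul_sum]
      simp_rw [habs]
      rw [sum_sub_distrib, sum_add_distrib, sum_const, card_range, nsmul_eq_mul]
    have h3 : ∑ j ∈ range k, mm (x (j + 1) + y (i + 1)) =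
        k * y (i + 1) + ∑ j ∈ range k, x (j + 1) -
          2 * ∑ e ∈ range r, w e * (vv c (i + 1) e * pp k a e) := by
      have h2 : ∑ e ∈ range r, w e * (vv c (i + 1) e * pp k a e) =
          ∑ j ∈ range k, max 0 (x (j + 1) + y (i + 1) - 1 / 2) := by
        simp_rw [pp_eq, mul_sum]
        rw [sum_comm]
        apply sum_congr rfl
        intro j hj
        rw [mem_range] at hj
        rw [← hxy (j + 1) hj (i + 1) hi]
        apply sum_congr rfl
        intro e _
        ring
      rw [h2, mul_sum]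
      have h4 : ∀ j ∈ range k, mm (x (j + 1) + y (i + 1)) =
          x (j + 1) + y (i + 1) - 2 * max 0 (x (j + 1) + y (i + 1) - 1 / 2) := by
        intro j hj
        rw [mem_range] at hj
        exact mm_eq (add_nonneg (hx_nonneg _ hj) (hy_nonneg _ hi))
      rw [sum_congr rfl h4, sum_sub_distrib, sum_add_distrib, sum_const, card_range, nsmul_eq_mul]
      ring
    have h5 : el k r w a c (i + 1) = (2 * k + 1) * y (i + 1) -
        2 * ∑ e ∈ range r, w e * (vv c (i + 1) e * pp k a e) -
        2 * ∑ e ∈ range r, w e * (vv c (i + 1) e * qq k c e) := by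
      rw [← hyy (i + 1) hi]
      unfold el yy
      rw [mul_sum, mul_sum, mul_sum, ← sum_sub_distrib, ← sum_sub_distrib]
      apply sum_congr rfl
      intro e _
      simp only [nn]
      ring
    rw [hFL i hi, h1, h3, h5, hS]
    ring
  have hcore := core_ineq k r w a c hk hw0 hw1 ha0 hc0 haa hcc S hSe hpos
  rw [hxx k le_rfl, hyy k le_rfl] at hcore
  have e1 : ∑ i ∈ range k, FR i = ∑ i ∈ range k, (S + er k r w a c (i + 1)) :=
    sum_congr rfl (fun i hi => hR i (mem_range.mp hi))
  have e2 : ∑ i ∈ range k, FL i = ∑ i ∈ range k, (S + el k r w a c (i + 1)) :=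
    sum_congr rfl (fun i hi => hL i (mem_range.mp hi))
  have e3 : ∑ i ∈ range k, (y (k - i) - y (k - 1 - i)) * FR i =
      ∑ i ∈ range k, (yy r w c (k - i) - yy r w c (k - 1 - i)) * (S + er k r w a c (i + 1)) := by
    apply sum_congr rfl
    intro i hi
    rw [hR i (mem_range.mp hi), hyy (k - i) (by omega), hyy (k - 1 - i) (by omega)]
  have e4 : ∑ i ∈ range k, (x (k - i) - x (k - 1 - i)) * FL i =
      ∑ i ∈ range k, (xx r w a (k - i) - xx r w a (k - 1 - i)) * (S + el k r w a c (i + 1)) := by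
    apply sum_congr rfl
    intro i hi
    rw [hL i (mem_range.mp hi), hxx (k - i) (by omega), hxx (k - 1 - i) (by omega)]
  rw [e1, e2, e3, e4]
  exact hcore

end Geo


/-! ### From the circle to the line -/

section Circ

theorem scLottery_sum_single {n : ℕ} {ι : Type*} (b : Fin n → ℝ) (s : Finset ι) (v p : ι → ℝ) :
    scLottery b (∑ j ∈ s, Finsupp.single (v j) (p j)) = ∑ j ∈ s, p j * sc b (v j) := by
  unfold scLottery
  rw [← Finsupp.sum_finsetSum_index]
  · apply sum_congr rfl
    intro j _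
    rw [Finsupp.sum_single_index]
    ring
  · intro v; ring
  · intro v p q; ring

theorem scLottery_add {n : ℕ} (b : Fin n → ℝ) (l l' : ℝ →₀ ℝ) :
    scLottery b (l + l') = scLottery b l + scLottery b l' := by
  unfold scLottery
  rw [Finsupp.sum_add_index']
  · intro v; ring
  · intro v p q; ring

theorem scLottery_smul {n : ℕ} (b : Fin n → ℝ) (l : ℝ →₀ ℝ) (q : ℝ) :
    scLottery b (q • l) = q * scLottery b l := by
  unfold scLottery
  rw [Finsupp.sum_smul_index]
  · unfold Finsupp.sum
    rw [mul_sum]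
    apply sum_congr rfl
    intro v _
    ring
  · intro v; ring

theorem arc_nonneg {u v : ℝ} (hu : u ∈ G) (hv : v ∈ G) : 0 ≤ arc u v := by
  unfold arc
  split_ifs with h
  · linarith
  · have := hu.2; have := hv.1; linarith

theorem arc_eq_zero {u v : ℝ} (hu : u ∈ G) (hv : v ∈ G) (h : arc u v = 0) : u = v := by
  unfold arc at h
  split_ifs at h with h1
  · linarith
  · have := hu.2; have := hv.1; linarith

theorem arc_int (u v : ℝ) : ∃ K : ℤ, arc u v = v - u + K := by
  unfold arc
  split_ifs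
  · exact ⟨0, by simp⟩
  · exact ⟨1, by simp⟩

theorem cdist_eq {u v u' v' : ℝ} (hu : u ∈ G) (hv : v ∈ G) (K L : ℤ) (hu' : u' = u + K)
    (hv' : v' = v + L) (h : |u' - v'| ≤ 1) : cdist u v = mm (u' - v') := by
  have h1 : u' - v' = (u - v) + ((K - L : ℤ) : ℝ) := by rw [hu', hv']; push_cast; ring
  have h2 : |u - v| < 1 := by
    rw [abs_lt]
    have := hu.1; have := hu.2; have := hv.1; have := hv.2
    constructor <;> linarith
  rw [abs_lt] at h2
  rw [abs_le] at h
  rw [h1] at h ⊢
  have h3 : ((K - L : ℤ) : ℝ) < 2 := by linarith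
  have h4 : (-2 : ℝ) < ((K - L : ℤ) : ℝ) := by linarith
  have h5 : K - L < 2 := by exact_mod_cast h3
  have h6 : -2 < K - L := by exact_mod_cast h4
  unfold cdist mm
  have h7 : K - L = 0 ∨ K - L = 1 ∨ K - L = -1 := by omega
  rcases h7 with h7 | h7 | h7
  · rw [h7]; simp
  · rw [h7] at h ⊢
    push_cast at h ⊢
    rw [abs_of_nonpos (show u - v ≤ 0 by linarith), abs_of_nonneg (show 0 ≤ u - v + 1 by linarith),
      min_comm]
    congr 1 <;> ring
  · rw [h7] at h ⊢
    push_cast at h ⊢
    rw [abs_of_nonneg (show 0 ≤ u - v by linarith), abs_of_nonpos (show u - v + -1 ≤ 0 by linarith),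
      min_comm]
    congr 1 <;> ring

theorem mm_le_abs (u : ℝ) : mm u ≤ |u| := min_le_left _ _

theorem mm_of_le {u : ℝ} (h : |u| ≤ 1 / 2) : mm u = |u| := min_eq_left (by linarith)

theorem le_half_of_mm {u : ℝ} (h : mm u = |u|) : |u| ≤ 1 / 2 := by
  have h1 : mm u ≤ 1 - |u| := min_le_right _ _
  linarith

theorem mm_neg (u : ℝ) : mm (-u) = mm u := by unfold mm; rw [abs_neg]

theorem sum_zmod (k : ℕ) (φ : ZMod (2 * k + 1) → ℝ) (M : ℕ) :
    ∑ j, φ j = ∑ l ∈ range (2 * k + 1), φ ((M + l : ℕ) : ZMod (2 * k + 1)) := by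
  have h1 : ∑ j, φ j = ∑ j, φ ((M : ZMod (2 * k + 1)) + j) :=
    (Equiv.sum_comp (Equiv.addLeft (M : ZMod (2 * k + 1))) φ).symm
  rw [h1]
  symm
  apply Finset.sum_nbij' (fun l : ℕ => (l : ZMod (2 * k + 1))) (fun j => j.val)
  · intro l _; exact mem_univ _
  · intro j _
    rw [mem_range]
    exact ZMod.val_lt j
  · intro l hl
    rw [mem_range] at hl
    exact ZMod.val_natCast_of_lt hl
  · intro j _
    exact ZMod.natCast_zmod_val j
  · intro l _
    push_cast
    rfl

/-- splitting a sum around its centre -/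
theorem sum_centre (k : ℕ) (φ : ℕ → ℝ) :
    ∑ l ∈ range (2 * k + 1), φ l =
      φ k + ∑ i ∈ range k, φ (k + 1 + i) + ∑ i ∈ range k, φ (k - 1 - i) := by
  rw [show 2 * k + 1 = (k + 1) + k by ring, sum_range_add, Finset.sum_range_succ,
    ← Finset.sum_range_reflect φ k]
  ring

/-- the median minimises the sum of distances on the line -/
theorem median_le (k : ℕ) (s : ℕ → ℝ) (hs : ∀ i j, i ≤ j → j ≤ 2 * k → s i ≤ s j) (v : ℝ) :
    ∑ l ∈ range (2 * k + 1), |s l - s k| ≤ ∑ l ∈ range (2 * k + 1), |s l - v| := by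
  rw [sum_centre, sum_centre, add_assoc, add_assoc, ← sum_add_distrib, ← sum_add_distrib]
  apply add_le_add
  · rw [sub_self, abs_zero]; exact abs_nonneg _
  · have h1 : ∀ u : ℝ, ∑ i ∈ range k, (|s (k + 1 + i) - u| + |s (k - 1 - i) - u|) =
        ∑ i ∈ range k, (|s (k + 1 + i) - u| + |s (k - 1 - i) - u|) := fun _ => rfl
    apply sum_le_sum
    intro i hi
    rw [mem_range] at hi
    have h2 := hs k (k + 1 + i) (by omega) (by omega)
    have h3 := hs (k - 1 - i) k (by omega) (by omega)
    rw [abs_of_nonneg (show 0 ≤ s (k + 1 + i) - s k by linarith),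
      abs_of_nonpos (show s (k - 1 - i) - s k ≤ 0 by linarith)]
    have h4 := le_abs_self (s (k + 1 + i) - v)
    have h5 := neg_abs_le (s (k - 1 - i) - v)
    linarith

section Main

variable {k : ℕ} (b : Fin (2 * k + 1) → ℝ) (a : ZMod (2 * k + 1) ≃ Fin (2 * k + 1))

/-- reports in clockwise order -/
def AA (m : ℕ) : ℝ := b (a (m : ZMod (2 * k + 1)))

/-- lift of the clockwise enumeration to the line -/
noncomputable def tt (m : ℕ) : ℝ := AA b a 0 + ∑ j ∈ range m, arc (AA b a j) (AA b a (j + 1))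

theorem AA_period (m : ℕ) : AA b a (m + (2 * k + 1)) = AA b a m := by
  unfold AA
  have : ((m + (2 * k + 1) : ℕ) : ZMod (2 * k + 1)) = (m : ZMod (2 * k + 1)) := by
    rw [Nat.cast_add, ZMod.natCast_self, add_zero]
  rw [this]

theorem tt_succ (m : ℕ) : tt b a (m + 1) = tt b a m + arc (AA b a m) (AA b a (m + 1)) := by
  unfold tt
  rw [sum_range_succ]
  ring

theorem tt_int (m : ℕ) : ∃ K : ℤ, tt b a m = AA b a m + K := by
  induction m with
  | zero => exact ⟨0, by simp [tt]⟩
  | succ m ih =>
    obtain ⟨K, hK⟩ := ih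
    obtain ⟨L, hL⟩ := arc_int (AA b a m) (AA b a (m + 1))
    refine ⟨K + L, ?_⟩
    rw [tt_succ, hK, hL]
    push_cast
    ring

theorem tt_mono (hb : ∀ i, b i ∈ G) : Monotone (tt b a) := by
  apply monotone_nat_of_le_succ
  intro m
  rw [tt_succ]
  have := arc_nonneg (hb (a (m : ZMod (2 * k + 1)))) (hb (a ((m + 1 : ℕ) : ZMod (2 * k + 1))))
  unfold AA
  linarith

theorem total_eq (M : ℕ) : ∑ j, arc (b (a j)) (b (a (j + 1))) =
    ∑ l ∈ range (2 * k + 1), arc (AA b a (M + l)) (AA b a (M + l + 1)) := by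
  rw [sum_zmod k _ M]
  apply sum_congr rfl
  intro l _
  unfold AA
  push_cast
  rfl

theorem tt_period_aux (M : ℕ) : tt b a (M + (2 * k + 1)) = tt b a M +
    ∑ j, arc (b (a j)) (b (a (j + 1))) := by
  rw [total_eq b a M]
  unfold tt
  rw [sum_range_add]
  simp only [add_assoc]

theorem total_one (hb : ∀ i, b i ∈ G) (ha : IsClockwise b a) (hne : ¬ ∀ i j, b i = b j) :
    ∑ j, arc (b (a j)) (b (a (j + 1))) = 1 := by
  have h0 : ∀ j, 0 ≤ arc (b (a j)) (b (a (j + 1))) := fun j => arc_nonneg (hb _) (hb _)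
  obtain ⟨K, hK⟩ := tt_int b a (2 * k + 1)
  have h1 := tt_period_aux b a 0
  rw [zero_add] at h1
  have h2 : AA b a (2 * k + 1) = AA b a 0 := by
    have := AA_period b a 0
    rwa [zero_add] at this
  have h3 : tt b a 0 = AA b a 0 := by simp [tt]
  rw [h1, h2, h3] at hK
  have h4 : ∑ j, arc (b (a j)) (b (a (j + 1))) = K := by linarith
  have h5 : 0 ≤ ∑ j, arc (b (a j)) (b (a (j + 1))) := sum_nonneg (fun j _ => h0 j)
  have h6 : ∑ j, arc (b (a j)) (b (a (j + 1))) ≤ 1 := ha
  rw [h4] at h5 h6 ⊢
  have h7 : (0 : ℤ) ≤ K := by exact_mod_cast h5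
  have h8 : K ≤ 1 := by exact_mod_cast h6
  have h9 : K ≠ 0 := by
    intro hK0
    rw [hK0, Int.cast_zero] at h4
    have h10 := (sum_eq_zero_iff_of_nonneg (fun j _ => h0 j)).mp h4
    have h11 : ∀ j, b (a j) = b (a (j + 1)) := fun j =>
      arc_eq_zero (hb _) (hb _) (h10 j (mem_univ _))
    have h12 : ∀ m : ℕ, b (a (m : ZMod (2 * k + 1))) = b (a 0) := by
      intro m
      induction m with
      | zero => simp
      | succ m ih =>
        rw [← ih, h11 (m : ZMod (2 * k + 1))]
        push_cast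
        rfl
    apply hne
    intro i j
    have h13 : ∀ i, b i = b (a 0) := by
      intro i
      have := h12 (a.symm i).val
      rw [ZMod.natCast_zmod_val, Equiv.apply_symm_apply] at this
      exact this
    rw [h13 i, h13 j]
  have : K = 1 := by omega
  rw [this]
  simp

theorem sc_eq (v : ℝ) (M : ℕ) : sc b v = ∑ l ∈ range (2 * k + 1), cdist (AA b a (M + l)) v := by
  unfold sc
  rw [← Equiv.sum_comp a, sum_zmod k _ M]
  rfl

/-- Around the median of the cut at the antipode of `v`. -/
theorem exists_window (hb : ∀ i, b i ∈ G) (hper : ∀ m, tt b a (m + (2 * k + 1)) = tt b a m + 1)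
    (v : ℝ) (hv : v ∈ G) :
    ∃ M : ℕ, (∀ l ≤ 2 * k, ∀ l' ≤ 2 * k, |tt b a (M + l) - tt b a (M + l')| ≤ 1) ∧
      sc b (AA b a (M + k)) ≤ sc b v ∧
      (sc b (AA b a (M + k)) = sc b v → ∀ l ≤ 2 * k, |tt b a (M + l) - tt b a (M + k)| ≤ 1 / 2) := by
  classical
  have hmono := tt_mono b a hb
  have h0 : tt b a 0 < 1 / 2 := by
    have h1 : tt b a 0 = AA b a 0 := by simp [tt]
    rw [h1]
    exact (hb _).2
  have hgrow : ∀ m : ℕ, tt b a (m * (2 * k + 1)) = tt b a 0 + m := by
    intro m
    induction m with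
    | zero => simp
    | succ m ih =>
      rw [Nat.succ_mul, hper, ih]
      push_cast
      ring
  have hex : ∃ M, v + 3 - 1 / 2 ≤ tt b a M := by
    refine ⟨4 * (2 * k + 1), ?_⟩
    rw [hgrow 4]
    have h1 : tt b a 0 = AA b a 0 := by simp [tt]
    have h2 : -(1 / 2) ≤ tt b a 0 := by rw [h1]; exact (hb _).1
    have := hv.2
    push_cast
    linarith
  set M := Nat.find hex with hM
  have hM1 : v + 3 - 1 / 2 ≤ tt b a M := Nat.find_spec hex
  have hM0 : M ≠ 0 := by
    intro h
    rw [h] at hM1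
    have := hv.1
    linarith
  have hM2 : tt b a (M - 1) < v + 3 - 1 / 2 := by
    have := Nat.find_min hex (show M - 1 < M by omega)
    exact not_le.mp this
  have hM3 : tt b a (M + 2 * k) < v + 3 + 1 / 2 := by
    have h1 := hper (M - 1)
    rw [show M - 1 + (2 * k + 1) = M + 2 * k by omega] at h1
    linarith
  have hlow : ∀ l, v + 3 - 1 / 2 ≤ tt b a (M + l) := fun l =>
    hM1.trans (hmono (Nat.le_add_right _ _))
  have hhigh : ∀ l ≤ 2 * k, tt b a (M + l) < v + 3 + 1 / 2 := fun l hl =>
    lt_of_le_of_lt (hmono (by omega)) hM3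
  have hone : ∀ l ≤ 2 * k, ∀ l' ≤ 2 * k, |tt b a (M + l) - tt b a (M + l')| ≤ 1 := by
    intro l hl l' hl'
    have h1 := hlow l
    have h2 := hlow l'
    have h3 := hhigh l hl
    have h4 := hhigh l' hl'
    rw [abs_le]
    constructor <;> linarith
  have hsc1 : sc b v = ∑ l ∈ range (2 * k + 1), |tt b a (M + l) - (v + 3)| := by
    rw [sc_eq b a v M]
    apply sum_congr rfl
    intro l hl
    rw [mem_range] at hl
    obtain ⟨K, hK⟩ := tt_int b a (M + l)
    have h1 := hlow l
    have h2 := hhigh l (by omega)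
    have h3 : |tt b a (M + l) - (v + 3)| ≤ 1 / 2 := by
      rw [abs_le]; constructor <;> linarith
    rw [cdist_eq (u := AA b a (M + l)) (hb _) hv K 3 hK (by push_cast; rfl) (h3.trans (by norm_num)),
      mm_of_le h3]
  have hsc2 : sc b (AA b a (M + k)) =
      ∑ l ∈ range (2 * k + 1), mm (tt b a (M + l) - tt b a (M + k)) := by
    rw [sc_eq b a _ M]
    apply sum_congr rfl
    intro l hl
    rw [mem_range] at hl
    obtain ⟨K, hK⟩ := tt_int b a (M + l)
    obtain ⟨L, hL⟩ := tt_int b a (M + k)
    exact cdist_eq (hb _) (hb _) K L hK hL (hone l (by omega) k (by omega))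
  have hmed := median_le k (fun l => tt b a (M + l)) (fun i j hij _ => hmono (by omega)) (v + 3)
  have hmm : ∑ l ∈ range (2 * k + 1), mm (tt b a (M + l) - tt b a (M + k)) ≤
      ∑ l ∈ range (2 * k + 1), |tt b a (M + l) - tt b a (M + k)| :=
    sum_le_sum (fun l _ => mm_le_abs _)
  refine ⟨M, hone, ?_, ?_⟩
  · rw [hsc1, hsc2]
    exact hmm.trans hmed
  · intro heq
    rw [hsc1, hsc2] at heq
    have h1 : ∑ l ∈ range (2 * k + 1), mm (tt b a (M + l) - tt b a (M + k)) =
        ∑ l ∈ range (2 * k + 1), |tt b a (M + l) - tt b a (M + k)| :=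
      le_antisymm hmm (by rw [heq]; exact hmed)
    have h2 := (sum_eq_sum_iff_of_le (fun l _ => mm_le_abs (tt b a (M + l) - tt b a (M + k)))).mp h1
    intro l hl
    exact le_half_of_mm (h2 l (by rw [mem_range]; omega))

theorem main_ineq (hk : 1 ≤ k) (hb : ∀ i, b i ∈ G) (ha : IsClockwise b a)
    (hne : ¬ ∀ i j, b i = b j) :
    ∃ v ∈ G, (∀ u ∈ G, sc b v ≤ sc b u) ∧ 0 < sc b v ∧
      scLottery b (RDPCD b a) < 3 / 2 * sc b v := by
  classical
  have hone := total_one b a hb ha hne
  have hper : ∀ m, tt b a (m + (2 * k + 1)) = tt b a m + 1 := by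
    intro m
    rw [tt_period_aux, hone]
  have hmono := tt_mono b a hb
  -- a global minimiser
  obtain ⟨i₀, -, hi₀⟩ := exists_min_image (univ : Finset (Fin (2 * k + 1))) (fun i => sc b (b i))
    ⟨⟨0, by omega⟩, mem_univ _⟩
  have hglob : ∀ u ∈ G, sc b (b i₀) ≤ sc b u := by
    intro u hu
    obtain ⟨M, -, h2, -⟩ := exists_window b a hb hper u hu
    exact (hi₀ _ (mem_univ _)).trans h2
  obtain ⟨M, hM1, hM2, hM3⟩ := exists_window b a hb hper (b i₀) (hb i₀)
  have hMeq : sc b (AA b a (M + k)) = sc b (b i₀) :=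
    le_antisymm hM2 (hi₀ _ (mem_univ _))
  have hhalf := hM3 hMeq
  set c := M + k with hc
  set v := AA b a c with hv
  have hvG : v ∈ G := hb _
  set t := tt b a with ht
  -- positions
  set x : ℕ → ℝ := fun i => t (c + i) - t c with hx
  set y : ℕ → ℝ := fun i => t c - t (c - i) with hy
  have hx0 : x 0 = 0 := by simp [hx]
  have hy0 : y 0 = 0 := by simp [hy]
  have hxm : ∀ i j, i ≤ j → j ≤ k → x i ≤ x j := by
    intro i j hij _
    simp only [hx]
    have := hmono (show c + i ≤ c + j by omega)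
    linarith
  have hym : ∀ i j, i ≤ j → j ≤ k → y i ≤ y j := by
    intro i j hij _
    simp only [hy]
    have := hmono (show c - j ≤ c - i by omega)
    linarith
  have hxk : x k ≤ 1 / 2 := by
    have := hhalf (2 * k) le_rfl
    rw [show M + 2 * k = c + k by omega] at this
    exact (le_abs_self _).trans this
  have hyk : y k ≤ 1 / 2 := by
    have := hhalf 0 (by omega)
    rw [show M + 0 = c - k by omega, abs_sub_comm] at this
    exact (le_abs_self _).trans this
  -- social costs of the agents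
  have hscl : ∀ m ≤ 2 * k, sc b (AA b a (M + m)) = ∑ l ∈ range (2 * k + 1), mm (t (M + l) - t (M + m)) := by
    intro m hm
    rw [sc_eq b a _ M]
    apply sum_congr rfl
    intro l hl
    rw [mem_range] at hl
    obtain ⟨K, hK⟩ := tt_int b a (M + l)
    obtain ⟨L, hL⟩ := tt_int b a (M + m)
    exact cdist_eq (hb _) (hb _) K L hK hL (hM1 l (by omega) m hm)
  have hxnn : ∀ i ≤ k, 0 ≤ x i := fun i hi => by
    have := hxm 0 i (Nat.zero_le _) hi
    rwa [hx0] at this
  have hynn : ∀ i ≤ k, 0 ≤ y i := fun i hi => by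
    have := hym 0 i (Nat.zero_le _) hi
    rwa [hy0] at this
  have hxh : ∀ i ≤ k, x i ≤ 1 / 2 := fun i hi => (hxm i k hi le_rfl).trans hxk
  have hyh : ∀ i ≤ k, y i ≤ 1 / 2 := fun i hi => (hym i k hi le_rfl).trans hyk
  have hS : sc b v = ∑ i ∈ range k, x (i + 1) + ∑ i ∈ range k, y (i + 1) := by
    rw [hv, hc, hscl k (by omega), sum_centre, sub_self]
    have h1 : mm (0 : ℝ) = 0 := by simp [mm]
    rw [h1, zero_add]
    congr 1
    · apply sum_congr rfl
      intro i hi
      rw [mem_range] at hi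
      have h2 : t (M + (k + 1 + i)) - t (M + k) = x (i + 1) := by
        simp only [hx]
        rw [show M + (k + 1 + i) = c + (i + 1) by omega]
      rw [h2, mm_of_le (by rw [abs_of_nonneg (hxnn _ hi)]; exact hxh _ hi),
        abs_of_nonneg (hxnn _ hi)]
    · apply sum_congr rfl
      intro i hi
      rw [mem_range] at hi
      have h2 : t (M + (k - 1 - i)) - t (M + k) = - y (i + 1) := by
        simp only [hy]
        rw [show M + (k - 1 - i) = c - (i + 1) by omega]
        ring
      rw [h2, mm_neg, mm_of_le (by rw [abs_of_nonneg (hynn _ hi)]; exact hyh _ hi),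
        abs_of_nonneg (hynn _ hi)]
  have hSpos : 0 < sc b v := by
    rcases lt_or_ge 0 (sc b v) with h | h
    · exact h
    · exfalso
      have h1 : ∑ i ∈ range k, x (i + 1) + ∑ i ∈ range k, y (i + 1) ≤ 0 := by rw [← hS]; exact h
      have h2 : 0 ≤ ∑ i ∈ range k, x (i + 1) :=
        sum_nonneg (fun i hi => hxnn _ (mem_range.mp hi))
      have h3 : 0 ≤ ∑ i ∈ range k, y (i + 1) :=
        sum_nonneg (fun i hi => hynn _ (mem_range.mp hi))
      have h4 : ∑ i ∈ range k, x (i + 1) = 0 := by linarith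
      have h5 : ∑ i ∈ range k, y (i + 1) = 0 := by linarith
      have h6 := (sum_eq_zero_iff_of_nonneg (fun i hi => hxnn _ (mem_range.mp hi))).mp h4
      have h7 := (sum_eq_zero_iff_of_nonneg (fun i hi => hynn _ (mem_range.mp hi))).mp h5
      have h8 : x k = 0 := by
        have := h6 (k - 1) (by rw [mem_range]; omega)
        rwa [show (k - 1).succ = k by omega] at this
      have h9 : y k = 0 := by
        have := h7 (k - 1) (by rw [mem_range]; omega)
        rwa [show (k - 1).succ = k by omega] at this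
      -- all lifts in the window coincide
      have h10 : ∀ l ≤ 2 * k, t (M + l) = t c := by
        intro l hl
        have h11 := hmono (show M ≤ M + l by omega)
        have h12 := hmono (show M + l ≤ c + k by omega)
        simp only [hx] at h8
        simp only [hy] at h9
        rw [show c - k = M by omega] at h9
        apply le_antisymm
        · linarith
        · linarith
      apply hne
      have h13 : ∀ i, b i = v := by
        intro i
        have h14 : 0 ≤ cdist (b i) v := by
          unfold cdist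
          apply le_min (abs_nonneg _)
          have h15 : |b i - v| < 1 := by
            rw [abs_lt]
            have := (hb i).1; have := (hb i).2; have := hvG.1; have := hvG.2
            constructor <;> linarith
          linarith
        have h16 : ∀ i ∈ (univ : Finset (Fin (2 * k + 1))), 0 ≤ cdist (b i) v := by
          intro i _
          unfold cdist
          apply le_min (abs_nonneg _)
          have h15 : |b i - v| < 1 := by
            rw [abs_lt]
            have := (hb i).1; have := (hb i).2; have := hvG.1; have := hvG.2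
            constructor <;> linarith
          linarith
        have h17 : sc b v = 0 := by rw [hS, h4, h5, add_zero]
        have h18 := (sum_eq_zero_iff_of_nonneg h16).mp h17 i (mem_univ _)
        have h15 : |b i - v| < 1 := by
          rw [abs_lt]
          have := (hb i).1; have := (hb i).2; have := hvG.1; have := hvG.2
          constructor <;> linarith
        unfold cdist at h18
        have h19 : |b i - v| = 0 := by
          rcases min_choice |b i - v| (1 - |b i - v|) with h | h
          · rw [h] at h18; exact h18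
          · rw [h] at h18; linarith
        rw [abs_eq_zero, sub_eq_zero] at h19
        exact h19
      intro i j
      rw [h13 i, h13 j]
  set FR : ℕ → ℝ := fun i => sc b (AA b a (M + (k + 1 + i))) with hFRdef
  set FL : ℕ → ℝ := fun i => sc b (AA b a (M + (k - 1 - i))) with hFLdef
  have hFR : ∀ i < k, FR i = ∑ j ∈ range k, |x (i + 1) - x (j + 1)| + x (i + 1) +
      ∑ j ∈ range k, mm (x (i + 1) + y (j + 1)) := by
    intro i hi
    simp only [hFRdef]
    rw [hscl _ (by omega), sum_centre]
    have h1 : mm (t (M + k) - t (M + (k + 1 + i))) = x (i + 1) := by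
      have h2 : t (M + k) - t (M + (k + 1 + i)) = -x (i + 1) := by
        simp only [hx]
        rw [show M + (k + 1 + i) = c + (i + 1) by omega]
        ring
      rw [h2, mm_neg, mm_of_le (by rw [abs_of_nonneg (hxnn _ hi)]; exact hxh _ hi),
        abs_of_nonneg (hxnn _ hi)]
    have h3 : ∑ j ∈ range k, mm (t (M + (k + 1 + j)) - t (M + (k + 1 + i))) =
        ∑ j ∈ range k, |x (i + 1) - x (j + 1)| := by
      apply sum_congr rfl
      intro j hj
      rw [mem_range] at hj
      have h2 : t (M + (k + 1 + j)) - t (M + (k + 1 + i)) = -(x (i + 1) - x (j + 1)) := by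
        simp only [hx]
        rw [show M + (k + 1 + i) = c + (i + 1) by omega, show M + (k + 1 + j) = c + (j + 1) by omega]
        ring
      rw [h2, mm_neg, mm_of_le]
      rw [abs_le]
      have := hxnn _ hi; have := hxnn _ hj; have := hxh _ hi; have := hxh _ hj
      constructor <;> linarith
    have h4 : ∑ j ∈ range k, mm (t (M + (k - 1 - j)) - t (M + (k + 1 + i))) =
        ∑ j ∈ range k, mm (x (i + 1) + y (j + 1)) := by
      apply sum_congr rfl
      intro j hj
      rw [mem_range] at hj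
      have h2 : t (M + (k - 1 - j)) - t (M + (k + 1 + i)) = -(x (i + 1) + y (j + 1)) := by
        simp only [hx, hy]
        rw [show M + (k + 1 + i) = c + (i + 1) by omega, show M + (k - 1 - j) = c - (j + 1) by omega]
        ring
      rw [h2, mm_neg]
    rw [h1, h3, h4]
    ring
  have hFL : ∀ i < k, FL i = ∑ j ∈ range k, |y (i + 1) - y (j + 1)| + y (i + 1) +
      ∑ j ∈ range k, mm (x (j + 1) + y (i + 1)) := by
    intro i hi
    simp only [hFLdef]
    rw [hscl _ (by omega), sum_centre]
    have h1 : mm (t (M + k) - t (M + (k - 1 - i))) = y (i + 1) := by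
      have h2 : t (M + k) - t (M + (k - 1 - i)) = y (i + 1) := by
        simp only [hy]
        rw [show M + (k - 1 - i) = c - (i + 1) by omega]
      rw [h2, mm_of_le (by rw [abs_of_nonneg (hynn _ hi)]; exact hyh _ hi),
        abs_of_nonneg (hynn _ hi)]
    have h3 : ∑ j ∈ range k, mm (t (M + (k - 1 - j)) - t (M + (k - 1 - i))) =
        ∑ j ∈ range k, |y (i + 1) - y (j + 1)| := by
      apply sum_congr rfl
      intro j hj
      rw [mem_range] at hj
      have h2 : t (M + (k - 1 - j)) - t (M + (k - 1 - i)) = y (i + 1) - y (j + 1) := by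
        simp only [hy]
        rw [show M + (k - 1 - i) = c - (i + 1) by omega, show M + (k - 1 - j) = c - (j + 1) by omega]
        ring
      rw [h2, mm_of_le]
      rw [abs_le]
      have := hynn _ hi; have := hynn _ hj; have := hyh _ hi; have := hyh _ hj
      constructor <;> linarith
    have h4 : ∑ j ∈ range k, mm (t (M + (k + 1 + j)) - t (M + (k - 1 - i))) =
        ∑ j ∈ range k, mm (x (j + 1) + y (i + 1)) := by
      apply sum_congr rfl
      intro j hj
      rw [mem_range] at hj
      have h2 : t (M + (k + 1 + j)) - t (M + (k - 1 - i)) = x (j + 1) + y (i + 1) := by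
        simp only [hx, hy]
        rw [show M + (k + 1 + j) = c + (j + 1) by omega, show M + (k - 1 - i) = c - (i + 1) by omega]
        ring
      rw [h2]
    rw [h1, h3, h4]
    ring
  have hpos := position_ineq k hk x y hx0 hy0 hxm hym hxk hyk (sc b v) hS hSpos FR FL hFR hFL
  refine ⟨v, hvG, fun u hu => ?_, hSpos, ?_⟩
  · rw [hMeq]; exact hglob u hu
  -- the cost of the two mechanisms
  have hRD : scLottery b (RD b) =
      (sc b v + ∑ i ∈ range k, FR i + ∑ i ∈ range k, FL i) / (2 * k + 1) := by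
    unfold RD
    rw [scLottery_sum_single, ← mul_sum, ← Equiv.sum_comp a, sum_zmod k _ M,
      sum_centre k (fun l => sc b (b (a ((M + l : ℕ) : ZMod (2 * k + 1)))))]
    simp only [hFRdef, hFLdef, hv, hc, AA]
    push_cast
    ring
  have hop : ∀ j : ZMod (2 * k + 1), j - k = j + k + 1 := by
    intro j
    have h1 : ((2 * k + 1 : ℕ) : ZMod (2 * k + 1)) = 0 := ZMod.natCast_self _
    push_cast at h1
    linear_combination (-1 : ZMod (2 * k + 1)) * h1
  have hopsum : ∑ j, opposing b a j = 1 := by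
    rw [← hone, ← Equiv.sum_comp (Equiv.addRight (k : ZMod (2 * k + 1)))
      (fun j => arc (b (a j)) (b (a (j + 1))))]
    apply sum_congr rfl
    intro j _
    unfold opposing
    rw [hop j]
    rfl
  have hopl : ∀ l : ℕ, opposing b a ((M + l : ℕ) : ZMod (2 * k + 1)) =
      t (M + l + k + 1) - t (M + l + k) := by
    intro l
    unfold opposing
    rw [hop, ht, tt_succ]
    unfold AA
    push_cast
    ring
  have hPCD : scLottery b (PCD b a) = (1 - x k - y k) * sc b v +
      ∑ i ∈ range k, (y (k - i) - y (k - 1 - i)) * FR i +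
      ∑ i ∈ range k, (x (k - i) - x (k - 1 - i)) * FL i := by
    unfold PCD
    rw [hopsum, scLottery_sum_single, sum_zmod k _ M, sum_centre]
    congr 1
    · congr 1
      · rw [div_one, hopl]
        have h1 : t (M + k + k + 1) - t (M + k + k) = 1 - x k - y k := by
          simp only [hx, hy]
          have h2 := hper M
          rw [show M + k + k + 1 = M + (2 * k + 1) by ring, h2,
            show c - k = M by omega, show c + k = M + k + k by omega]
          ring
        rw [h1]
        rfl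
      · apply sum_congr rfl
        intro i hi
        rw [mem_range] at hi
        rw [div_one, hopl]
        have h1 : t (M + (k + 1 + i) + k + 1) - t (M + (k + 1 + i) + k) =
            y (k - i) - y (k - 1 - i) := by
          simp only [hy]
          have h2 := hper (M + i + 1)
          have h3 := hper (M + i)
          rw [show M + (k + 1 + i) + k + 1 = M + i + 1 + (2 * k + 1) by ring,
            show M + (k + 1 + i) + k = M + i + (2 * k + 1) by ring, h2, h3,
            show c - (k - i) = M + i by omega, show c - (k - 1 - i) = M + i + 1 by omega]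
          ring
        rw [h1]
        rfl
    · apply sum_congr rfl
      intro i hi
      rw [mem_range] at hi
      rw [div_one, hopl]
      have h1 : t (M + (k - 1 - i) + k + 1) - t (M + (k - 1 - i) + k) =
          x (k - i) - x (k - 1 - i) := by
        simp only [hx]
        rw [show M + (k - 1 - i) + k + 1 = c + (k - i) by omega,
          show M + (k - 1 - i) + k = c + (k - 1 - i) by omega]
        ring
      rw [h1]
      rfl
  unfold RDPCD
  rw [scLottery_add, scLottery_smul, scLottery_smul, hRD, hPCD]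
  linarith

end Main

theorem exists_clockwise {k : ℕ} (b : Fin (2 * k + 1) → ℝ) :
    ∃ a : ZMod (2 * k + 1) ≃ Fin (2 * k + 1), IsClockwise b a := by
  classical
  -- identify `ZMod n` and `Fin n`, then sort
  set e : ZMod (2 * k + 1) ≃ Fin (2 * k + 1) :=
    { toFun := fun j => ⟨j.val, ZMod.val_lt j⟩
      invFun := fun i => (i : ℕ)
      left_inv := fun j => ZMod.natCast_zmod_val j
      right_inv := fun i => by
        ext
        exact ZMod.val_natCast_of_lt i.isLt } with he
  refine ⟨e.trans (Tuple.sort b), ?_⟩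
  have hmono := Tuple.monotone_sort b
  unfold IsClockwise
  have h1 := total_eq b (e.trans (Tuple.sort b)) 0
  rw [h1]
  have hA : ∀ l, (hl : l < 2 * k + 1) → AA b (e.trans (Tuple.sort b)) l = b (Tuple.sort b ⟨l, hl⟩) := by
    intro l hl
    unfold AA
    have : e (l : ZMod (2 * k + 1)) = ⟨l, hl⟩ := by
      ext
      exact ZMod.val_natCast_of_lt hl
    simp only [Equiv.trans_apply, this]
  have hA' : AA b (e.trans (Tuple.sort b)) (2 * k + 1) = AA b (e.trans (Tuple.sort b)) 0 := by
    have := AA_period b (e.trans (Tuple.sort b)) 0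
    rwa [zero_add] at this
  simp only [zero_add]
  rw [sum_range_succ]
  have h2 : ∀ l ∈ range (2 * k), arc (AA b (e.trans (Tuple.sort b)) l)
      (AA b (e.trans (Tuple.sort b)) (l + 1)) =
      AA b (e.trans (Tuple.sort b)) (l + 1) - AA b (e.trans (Tuple.sort b)) l := by
    intro l hl
    rw [mem_range] at hl
    unfold arc
    rw [if_pos]
    rw [hA l (by omega), hA (l + 1) (by omega)]
    exact hmono (by rw [Fin.le_def]; simp)
  rw [sum_congr rfl h2, Finset.sum_range_sub, hA']
  have h3 : arc (AA b (e.trans (Tuple.sort b)) (2 * k)) (AA b (e.trans (Tuple.sort b)) 0) ≤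
      AA b (e.trans (Tuple.sort b)) 0 - AA b (e.trans (Tuple.sort b)) (2 * k) + 1 := by
    unfold arc
    split_ifs <;> linarith
  linarith

/-- For every odd `n = 2 k + 1 ≥ 3` and every profile `b`, the approximation ratio of RD+PCD is
below `3 / 2`, whichever clockwise enumeration of the agents is used (one exists); moreover, if not
all reports are equal then the optimum is positive and attained. -/
theorem result (k : ℕ) (hk : 1 ≤ k) (b : Fin (2 * k + 1) → ℝ) (hb : ∀ i, b i ∈ G) :
    (∃ a : ZMod (2 * k + 1) ≃ Fin (2 * k + 1), IsClockwise b a) ∧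
    (∀ a : ZMod (2 * k + 1) ≃ Fin (2 * k + 1), IsClockwise b a → apx b a < 3 / 2) ∧
    ((¬ ∀ i j, b i = b j) → 0 < opt b ∧ ∃ v ∈ G, sc b v = opt b) := by
  classical
  obtain ⟨a₀, ha₀⟩ := exists_clockwise b
  have hopt : ∀ v ∈ G, (∀ u ∈ G, sc b v ≤ sc b u) → opt b = sc b v := by
    intro v hv hmin
    unfold opt
    apply le_antisymm
    · apply csInf_le
      · refine ⟨sc b v, ?_⟩
        rintro _ ⟨u, hu, rfl⟩
        exact hmin u hu
      · exact Set.mem_image_of_mem _ hv
    · apply le_csInf ⟨sc b v, Set.mem_image_of_mem _ hv⟩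
      rintro _ ⟨u, hu, rfl⟩
      exact hmin u hu
  refine ⟨⟨a₀, ha₀⟩, ?_, ?_⟩
  · intro a ha
    unfold apx
    split_ifs with h
    · norm_num
    · obtain ⟨v, hv, hmin, hpos, hlt⟩ := main_ineq b a hk hb ha h
      rw [hopt v hv hmin, div_lt_iff₀ hpos]
      exact hlt
  · intro h
    obtain ⟨v, hv, hmin, hpos, -⟩ := main_ineq b a₀ hk hb ha₀ h
    rw [hopt v hv hmin]
    exact ⟨hpos, v, hv, rfl⟩

end Circ

end Pool.Agent.Results.MP_9e0a8c_lc.RatioBelow
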